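import Mathlib

/-!
p-functions, standard p-functions and the extremal function of the problem.
-/

set_option autoImplicit false

open Filter Topology MeasureTheory
open scoped NNReal

namespace Pool.Agent.N99PF

/-- `p` is a p-function: `p 0 = 1`, `p` has values in `[0,1]`, and there are a probability space
`(Ω, P)` and measurable events `E t` (`t ≥ 0`) such that for all `t 0 ≤ t 1 ≤ ... ≤ t n`,
`P (E (t 0) ∩ ... ∩ E (t n)) = p (t 0) * P (E (t 1 - t 0) ∩ ... ∩ E (t n - t 0))`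
(for `n = 0` the intersection on the right is the whole space). -/
def IsPFunction (p : ℝ≥0 → ℝ) : Prop :=
  p 0 = 1 ∧ (∀ t, 0 ≤ p t ∧ p t ≤ 1) ∧
  ∃ (Ω : Type) (_ : MeasurableSpace Ω) (P : Measure Ω) (E : ℝ≥0 → Set Ω),
    IsProbabilityMeasure P ∧ (∀ t, MeasurableSet (E t)) ∧
    ∀ (n : ℕ) (t : Fin (n + 1) → ℝ≥0), Monotone t →
      P.real (⋂ i, E (t i)) = p (t 0) * P.real (⋂ i : Fin n, E (t i.succ - t 0))

/-- The set of standard p-functions: p-functions with `p t → 1` as `t → 0`. -/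
def IsStd (p : ℝ≥0 → ℝ) : Prop := IsPFunction p ∧ Tendsto p (𝓝 0) (𝓝 1)

/-- `m(M;p)`: the infimum of `p` over `[0,1]`. -/
noncomputable def mInf (p : ℝ≥0 → ℝ) : ℝ := sInf (p '' Set.Icc 0 1)

/-- `I(M)`: the infimum of `mInf p` over the standard p-functions with `p 1 = M`. -/
noncomputable def I (M : ℝ) : ℝ := sInf {x | ∃ p : ℝ≥0 → ℝ, IsStd p ∧ p 1 = M ∧ mInf p = x}

end Pool.Agent.N99PF
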