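import Pool.Agent.Helper945.RenCore

/-!
Discrete renewal sequences: after a low value a renewal sequence cannot come back high.
-/

set_option autoImplicit false

open Finset

namespace Pool.Agent.N99PF.Disc

open Pool.Agent.Helper945.RenCore

variable {g : ℕ → ℝ}

/-- shifted renewal sequence, zero to the left of the origin -/
def uu (g : ℕ → ℝ) (z i : ℕ) : ℝ := if i ≤ z then u g (z - i) else 0

lemma uu_rec (h0 : g 0 = 0) (z i : ℕ) :
    uu g z i = (if i = z then 1 else 0) + ∑ m ∈ range (z + 1), g m * uu g (z - m) i := by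
  rcases lt_trichotomy i z with h | h | h
  · rw [if_neg (by omega), zero_add]
    unfold uu
    rw [if_pos h.le, u_rec h0 (z - i) (by omega)]
    refine Eq.trans ?_ (sum_subset (range_mono (show z - i + 1 ≤ z + 1 by omega)) ?_)
    · refine sum_congr rfl fun m hm => ?_
      rw [mem_range] at hm
      rw [if_pos (by omega), show z - i - m = z - m - i by omega]
    · intro m hm hm'
      rw [mem_range] at hm hm'
      rw [if_neg (by omega), mul_zero]
  · subst h
    rw [if_pos rfl]
    unfold uu
    rw [if_pos le_rfl, Nat.sub_self, u_zero]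
    have : ∑ m ∈ range (i + 1), g m * (if i ≤ i - m then u g (i - m - i) else 0) = 0 := by
      refine sum_eq_zero fun m hm => ?_
      rcases Nat.eq_zero_or_pos m with rfl | hm0
      · rw [h0, zero_mul]
      · rw [mem_range] at hm
        rw [if_neg (by omega), mul_zero]
    rw [this, add_zero]
  · rw [if_neg (by omega), zero_add]
    unfold uu
    rw [if_neg (by omega)]
    symm
    refine sum_eq_zero fun m hm => ?_
    rw [if_neg (by omega), mul_zero]

/-- superposition of shifted renewal sequences with weights `α` -/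
def W (g α : ℕ → ℝ) (b z : ℕ) : ℝ := ∑ i ∈ range b, α i * uu g z i

lemma W_rec (h0 : g 0 = 0) (α : ℕ → ℝ) (b z : ℕ) :
    W g α b z = (if z < b then α z else 0) + ∑ m ∈ range (z + 1), g m * W g α b (z - m) := by
  unfold W
  have h1 : ∀ i ∈ range b, α i * uu g z i = (if i = z then α i else 0)
      + ∑ m ∈ range (z + 1), g m * (α i * uu g (z - m) i) := by
    intro i _
    rw [uu_rec h0 z i, mul_add, mul_sum]
    congr 1
    · split_ifs <;> simp
    · exact sum_congr rfl fun m _ => by ring
  rw [sum_congr rfl h1, sum_add_distrib, sum_comm]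
  congr 1
  · rw [sum_ite_eq' (range b) z]
    simp only [mem_range]
  · refine sum_congr rfl fun m _ => ?_
    rw [mul_sum]

lemma W_nonneg (G : GapLaw g) (α : ℕ → ℝ) (b : ℕ) (h : ∀ z < b, 0 ≤ W g α b z) :
    ∀ z, 0 ≤ W g α b z := by
  intro z
  induction z using Nat.strong_induction_on with
  | _ z ih =>
    rcases lt_or_ge z b with hz | hz
    · exact h z hz
    · rw [W_rec G.zero, if_neg (by omega), zero_add]
      refine sum_nonneg fun m hm => ?_
      rcases Nat.eq_zero_or_pos m with rfl | hm0
      · rw [G.zero, zero_mul]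
      · rw [mem_range] at hm
        rcases Nat.eq_zero_or_pos z with hz0 | hz0
        · omega
        · exact mul_nonneg (G.nonneg m) (ih (z - m) (by omega))

lemma W_le (G : GapLaw g) (α : ℕ → ℝ) (b : ℕ) (C : ℝ) (hC : 0 ≤ C)
    (h : ∀ z < b, W g α b z ≤ C) : ∀ z, W g α b z ≤ C := by
  intro z
  induction z using Nat.strong_induction_on with
  | _ z ih =>
    rcases lt_or_ge z b with hz | hz
    · exact h z hz
    · rw [W_rec G.zero, if_neg (by omega), zero_add]
      calc ∑ m ∈ range (z + 1), g m * W g α b (z - m) ≤ ∑ m ∈ range (z + 1), g m * C := by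
            refine sum_le_sum fun m hm => ?_
            rcases Nat.eq_zero_or_pos m with rfl | hm0
            · rw [G.zero, zero_mul, zero_mul]
            · rw [mem_range] at hm
              exact mul_le_mul_of_nonneg_left (ih (z - m) (by omega)) (G.nonneg m)
        _ = (∑ m ∈ range (z + 1), g m) * C := by rw [sum_mul]
        _ ≤ 1 * C := mul_le_mul_of_nonneg_right (G.sum_le _) hC
        _ = C := one_mul C

/-- increments of the renewal sequence -/
def du (g : ℕ → ℝ) : ℕ → ℝ
  | 0 => 1
  | n + 1 => u g (n + 1) - u g n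

/-- increments of `u * u` -/
def bb (g : ℕ → ℝ) (z : ℕ) : ℝ := ∑ w ∈ range (z + 1), du g w * u g (z - w)

lemma W_eq_bb (b z : ℕ) (hz : z < b) : W g (du g) b z = bb g z := by
  unfold W bb
  symm
  refine Eq.trans ?_ (sum_subset (range_mono (show z + 1 ≤ b by omega)) ?_)
  · refine sum_congr rfl fun w hw => ?_
    rw [mem_range] at hw
    unfold uu
    rw [if_pos (by omega)]
  · intro m hm hm'
    rw [mem_range] at hm hm'
    unfold uu
    rw [if_neg (by omega), mul_zero]

lemma bb_zero : bb g 0 = 1 := by simp [bb, du, u_zero]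

lemma bb_rec (h0 : g 0 = 0) (z : ℕ) :
    bb g z = du g z + ∑ m ∈ range (z + 1), g m * bb g (z - m) := by
  have h := W_rec h0 (du g) (z + 1) z
  rw [if_pos (by omega), W_eq_bb _ _ (by omega)] at h
  rw [h]
  congr 1
  refine sum_congr rfl fun m hm => ?_
  rw [W_eq_bb _ _ (by omega)]

/-- tail identity for `bb` -/
lemma bb_tail (h0 : g 0 = 0) : ∀ z, ∑ j ∈ range (z + 1), H g j * bb g (z - j) = u g z
  | 0 => by simp [H, h0, bb_zero, u_zero]
  | z + 1 => by
      have ih := bb_tail h0 z
      have hr := bb_rec h0 (z + 1)
      rw [sum_range_succ', h0, zero_mul, add_zero] at hr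
      rw [sum_range_succ']
      have hH : ∀ j ∈ range (z + 1), H g (j + 1) * bb g (z + 1 - (j + 1))
          = H g j * bb g (z - j) - g (j + 1) * bb g (z - j) := by
        intro j _
        have : H g (j + 1) = H g j - g (j + 1) := by
          unfold H
          rw [sum_range_succ (fun m => g m) (j + 1)]
          ring
        rw [this, Nat.add_sub_add_right]
        ring
      rw [sum_congr rfl hH, sum_sub_distrib, ih]
      have h3 : H g 0 = 1 := by simp [H, h0]
      simp only [Nat.add_sub_add_right, Nat.sub_zero, h3, one_mul] at hr ⊢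
      rw [hr]
      simp only [du]
      ring

/-- tail identity in the other order -/
lemma tail' (h0 : g 0 = 0) (z : ℕ) : ∑ j ∈ range (z + 1), H g j * u g (z - j) = 1 := by
  rw [← tail_identity h0 z, ← sum_range_reflect (fun n => u g n * H g (z - n)) (z + 1)]
  refine sum_congr rfl fun j hj => ?_
  rw [mem_range] at hj
  rw [show z + 1 - 1 - j = z - j by omega, show z - (z - j) = j by omega, mul_comm]

/-- As long as `u ≥ 1/2`, `u * u` is nondecreasing. -/
lemma bb_bounds (G : GapLaw g) (z : ℕ) (h : ∀ w ≤ z, 1 / 2 ≤ u g w) :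
    0 ≤ bb g z ∧ bb g z ≤ u g z := by
  induction z using Nat.strong_induction_on with
  | _ z ih =>
    have h3 : H g 0 = 1 := by simp [H, G.zero]
    have e1 := bb_tail G.zero z
    have e2 := tail' G.zero z
    rw [sum_range_succ'] at e1 e2
    rw [h3, one_mul, Nat.sub_zero] at e1 e2
    have l1 : 0 ≤ ∑ j ∈ range z, H g (j + 1) * bb g (z - (j + 1)) := by
      refine sum_nonneg fun j hj => ?_
      rw [mem_range] at hj
      exact mul_nonneg (H_nonneg G _)
        (ih (z - (j + 1)) (by omega) fun w hw => h w (by omega)).1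
    have l2 : ∑ j ∈ range z, H g (j + 1) * bb g (z - (j + 1))
        ≤ ∑ j ∈ range z, H g (j + 1) * u g (z - (j + 1)) := by
      refine sum_le_sum fun j hj => ?_
      rw [mem_range] at hj
      exact mul_le_mul_of_nonneg_left
        (ih (z - (j + 1)) (by omega) fun w hw => h w (by omega)).2 (H_nonneg G _)
    have := h z le_rfl
    constructor <;> linarith

/-- the windows -/
def J (g : ℕ → ℝ) (r a z : ℕ) : ℝ := W g (fun v => if a ≤ v then u g v else 0) r z

lemma J_nonneg (G : GapLaw g) (r a z : ℕ) : 0 ≤ J g r a z := by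
  unfold J W
  refine sum_nonneg fun i _ => mul_nonneg ?_ ?_
  · show 0 ≤ if a ≤ i then u g i else 0
    split_ifs
    · exact u_nonneg G.nonneg _
    · exact le_rfl
  · unfold uu
    split_ifs
    · exact u_nonneg G.nonneg _
    · exact le_rfl

lemma J_eq (r a z : ℕ) (hz : z < r) :
    J g r a z = ∑ w ∈ range (z + 1), if a ≤ z - w then u g w * u g (z - w) else 0 := by
  have h1 : J g r a z = ∑ v ∈ range (z + 1), if a ≤ v then u g v * u g (z - v) else 0 := by
    unfold J W
    symm
    refine Eq.trans ?_ (sum_subset (range_mono (show z + 1 ≤ r by omega)) ?_)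
    · refine sum_congr rfl fun w hw => ?_
      rw [mem_range] at hw
      unfold uu
      rw [if_pos (by omega : w ≤ z)]
      by_cases h : a ≤ w
      · simp [h]
      · simp [h]
    · intro m hm hm'
      rw [mem_range] at hm hm'
      unfold uu
      rw [if_neg (by omega), mul_zero]
  rw [h1, ← sum_range_reflect]
  refine sum_congr rfl fun w hw => ?_
  rw [mem_range] at hw
  rw [show z + 1 - 1 - w = z - w by omega, show z - (z - w) = w by omega, mul_comm]

lemma J_succ (r a z : ℕ) (hz : z + 1 < r) (ha : a ≤ z + 1) :
    J g r a (z + 1) - J g r a z = W g (du g) (z + 2 - a) (z + 1) := by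
  rw [J_eq r a (z + 1) hz, J_eq r a z (by omega), sum_range_succ']
  rw [if_pos (by omega : a ≤ z + 1 - 0), u_zero, one_mul, Nat.sub_zero]
  have h1 : ∑ k ∈ range (z + 1), (if a ≤ z + 1 - (k + 1) then u g (k + 1) * u g (z + 1 - (k + 1))
      else 0) - ∑ w ∈ range (z + 1), (if a ≤ z - w then u g w * u g (z - w) else 0)
      = ∑ k ∈ range (z + 1), if a ≤ z - k then du g (k + 1) * u g (z - k) else 0 := by
    rw [← sum_sub_distrib]
    refine sum_congr rfl fun k _ => ?_
    rw [Nat.add_sub_add_right]
    split_ifs
    · simp only [du]; ring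
    · ring
  have h2 : W g (du g) (z + 2 - a) (z + 1) = u g (z + 1)
      + ∑ k ∈ range (z + 1), if a ≤ z - k then du g (k + 1) * u g (z - k) else 0 := by
    unfold W
    rw [show z + 2 - a = (z + 1 - a) + 1 by omega, sum_range_succ']
    rw [add_comm]
    congr 1
    · simp [uu, du]
    · refine Eq.trans ?_ (sum_subset (range_mono (show z + 1 - a ≤ z + 1 by omega)) ?_)
      · refine sum_congr rfl fun w hw => ?_
        rw [mem_range] at hw
        unfold uu
        rw [if_pos (by omega : w + 1 ≤ z + 1), if_pos (by omega), Nat.add_sub_add_right]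
      · intro m hm hm'
        rw [mem_range] at hm hm'
        rw [if_neg (by omega)]
  rw [h2, ← h1]
  ring

lemma J_zero_of_lt (r a z : ℕ) (hz : z < a) : J g r a z = 0 := by
  unfold J W
  refine sum_eq_zero fun i _ => ?_
  unfold uu
  by_cases h1 : a ≤ i
  · rw [if_neg (by omega : ¬ i ≤ z), mul_zero]
  · simp [h1]

/-- windows are nondecreasing up to `r - 1` -/
lemma J_mono (G : GapLaw g) (r a : ℕ) (h : ∀ w < r, 1 / 2 ≤ u g w) (z z' : ℕ) (hzz : z ≤ z')
    (hz : z' < r) : J g r a z ≤ J g r a z' := by
  induction z', hzz using Nat.le_induction with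
  | base => exact le_rfl
  | succ n hn ih =>
    refine (ih (by omega)).trans ?_
    rcases le_or_gt a (n + 1) with ha | ha
    · have h1 := J_succ (g := g) r a n hz ha
      have h2 : 0 ≤ W g (du g) (n + 2 - a) (n + 1) := by
        refine W_nonneg G _ _ (fun z hz' => ?_) _
        rw [W_eq_bb _ _ hz']
        exact (bb_bounds G z fun w hw => h w (by omega)).1
      linarith
    · rw [J_zero_of_lt r a n (by omega), J_zero_of_lt r a (n + 1) ha]

lemma J_le (G : GapLaw g) (r a : ℕ) (hr : 0 < r) (h : ∀ w < r, 1 / 2 ≤ u g w) (z : ℕ) :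
    J g r a z ≤ J g r a (r - 1) := by
  refine W_le G _ r _ (J_nonneg G r a (r - 1)) (fun z hz => ?_) z
  exact J_mono G r a h z (r - 1) (by omega) (by omega)

/-- the window attached to an excursion of length `m` straddling `y` -/
def Jx (g : ℕ → ℝ) (r y m : ℕ) : ℝ := if m ≤ y + r then J g r (r + 1 - m) (y + r - m) else 0

lemma Jx_rec (h0 : g 0 = 0) (r y m : ℕ) (hy : 1 ≤ y) (hm : 1 ≤ m) :
    Jx g r y m = (if y + 1 ≤ m ∧ m ≤ y + r then u g (y + r - m) else 0)
      + ∑ m' ∈ range (y + 1), g m' * Jx g r (y - m') m := by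
  rcases le_or_gt m (y + r) with hmr | hmr
  · have h2 := W_rec h0 (fun v => if r + 1 - m ≤ v then u g v else 0) r (y + r - m)
    have h3 : ∑ k ∈ range (y + r - m + 1), g k * J g r (r + 1 - m) (y + r - m - k)
        = ∑ k ∈ range (y + r + 1), if k ≤ y ∧ m + k ≤ y + r then
          g k * J g r (r + 1 - m) (y + r - m - k) else 0 := by
      refine Eq.trans ?_ (sum_subset (range_mono (show y + r - m + 1 ≤ y + r + 1 by omega)) ?_)
      · refine sum_congr rfl fun k hk => ?_
        rw [mem_range] at hk
        by_cases h : k ≤ y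
        · rw [if_pos ⟨h, by omega⟩]
        · rw [if_neg (fun h' => h h'.1), J_zero_of_lt _ _ _ (by omega), mul_zero]
      · intro k hk hk'
        rw [mem_range] at hk hk'
        rw [if_neg (by omega)]
    have h4 : ∑ k ∈ range (y + 1), g k * Jx g r (y - k) m
        = ∑ k ∈ range (y + r + 1), if k ≤ y ∧ m + k ≤ y + r then
          g k * J g r (r + 1 - m) (y + r - m - k) else 0 := by
      refine Eq.trans ?_ (sum_subset (range_mono (show y + 1 ≤ y + r + 1 by omega)) ?_)
      · refine sum_congr rfl fun k hk => ?_
        rw [mem_range] at hk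
        unfold Jx
        by_cases h : m + k ≤ y + r
        · rw [if_pos (by omega), if_pos (by omega), show y - k + r - m = y + r - m - k by omega]
        · rw [if_neg (by omega), if_neg (by omega), mul_zero]
      · intro k hk hk'
        rw [mem_range] at hk hk'
        rw [if_neg (by omega)]
    rw [h4, ← h3]
    unfold Jx
    rw [if_pos hmr]
    unfold J
    rw [h2]
    congr 1
    by_cases h5 : y + 1 ≤ m
    · rw [if_pos (by omega : y + r - m < r), if_pos (by omega : r + 1 - m ≤ y + r - m),
        if_pos ⟨h5, hmr⟩]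
    · rw [if_neg (by omega), if_neg (by omega)]
  · unfold Jx
    rw [if_neg (by omega), if_neg (by omega), zero_add]
    symm
    refine sum_eq_zero fun k _ => ?_
    rw [if_neg (by omega), mul_zero]

/-- the excursion straddling `y` -/
lemma A_formula (G : GapLaw g) (r K : ℕ) : ∀ y : ℕ, y + r < K →
    u g (y + r) = u g y * u g r + ∑ m ∈ range K, g m * Jx g r y m := by
  intro y
  induction y using Nat.strong_induction_on with
  | _ y ih =>
    intro hK
    rcases Nat.eq_zero_or_pos y with rfl | hy
    · rw [u_zero, one_mul]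
      have : ∑ m ∈ range K, g m * Jx g r 0 m = 0 := by
        refine sum_eq_zero fun m hm => ?_
        unfold Jx
        split_ifs with h
        · rw [J_zero_of_lt _ _ _ (by omega), mul_zero]
        · rw [mul_zero]
      rw [this, add_zero, zero_add]
    · have hR : ∑ m ∈ range K, g m * Jx g r y m
          = ∑ m ∈ range K, (if y + 1 ≤ m ∧ m ≤ y + r then g m * u g (y + r - m) else 0)
            + ∑ m' ∈ range (y + 1), g m' * ∑ m ∈ range K, g m * Jx g r (y - m') m := by
        have h1 : ∀ m ∈ range K, g m * Jx g r y m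
            = (if y + 1 ≤ m ∧ m ≤ y + r then g m * u g (y + r - m) else 0)
              + ∑ m' ∈ range (y + 1), g m' * (g m * Jx g r (y - m') m) := by
          intro m _
          rcases Nat.eq_zero_or_pos m with rfl | hm
          · rw [G.zero, if_neg (by omega), zero_mul, zero_add]
            symm
            exact sum_eq_zero fun m' _ => by rw [zero_mul, mul_zero]
          · rw [Jx_rec G.zero r y m hy hm, mul_add, mul_sum]
            congr 1
            · split_ifs <;> simp
            · exact sum_congr rfl fun m' _ => by ring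
        rw [sum_congr rfl h1, sum_add_distrib, sum_comm]
        congr 1
        exact sum_congr rfl fun m' _ => by rw [mul_sum]
      have hR2 : ∑ m' ∈ range (y + 1), g m' * ∑ m ∈ range K, g m * Jx g r (y - m') m
          = ∑ m' ∈ range (y + 1), (g m' * u g (y + r - m') - g m' * u g (y - m') * u g r) := by
        refine sum_congr rfl fun m' hm' => ?_
        rw [mem_range] at hm'
        rcases Nat.eq_zero_or_pos m' with rfl | hm0
        · rw [G.zero]; ring
        · have h1 := ih (y - m') (by omega) (by omega)
          rw [show y + r - m' = y - m' + r by omega, h1]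
          ring
      have hU : u g y = ∑ m ∈ range (y + 1), g m * u g (y - m) := u_rec G.zero y hy
      have hL : u g (y + r) = ∑ m ∈ range (y + 1), g m * u g (y + r - m)
          + ∑ m ∈ range K, (if y + 1 ≤ m ∧ m ≤ y + r then g m * u g (y + r - m) else 0) := by
        rw [u_rec G.zero (y + r) (by omega)]
        have e1 : ∑ m ∈ range (y + r + 1), g m * u g (y + r - m)
            = ∑ m ∈ range K, if m ≤ y + r then g m * u g (y + r - m) else 0 := by
          refine Eq.trans ?_ (sum_subset (range_mono (show y + r + 1 ≤ K by omega)) ?_)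
          · refine sum_congr rfl fun k hk => ?_
            rw [mem_range] at hk
            rw [if_pos (by omega)]
          · intro k hk hk'
            rw [mem_range] at hk hk'
            rw [if_neg (by omega)]
        have e2 : ∑ m ∈ range (y + 1), g m * u g (y + r - m)
            = ∑ m ∈ range K, if m ≤ y then g m * u g (y + r - m) else 0 := by
          refine Eq.trans ?_ (sum_subset (range_mono (show y + 1 ≤ K by omega)) ?_)
          · refine sum_congr rfl fun k hk => ?_
            rw [mem_range] at hk
            rw [if_pos (by omega)]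
          · intro k hk hk'
            rw [mem_range] at hk hk'
            rw [if_neg (by omega)]
        rw [e1, e2, ← sum_add_distrib]
        refine sum_congr rfl fun m _ => ?_
        by_cases h1 : m ≤ y
        · rw [if_pos (by omega), if_pos h1, if_neg (by omega), add_zero]
        · by_cases h2 : m ≤ y + r
          · rw [if_pos h2, if_neg h1, if_pos ⟨by omega, h2⟩, zero_add]
          · rw [if_neg h2, if_neg h1, if_neg (by omega), add_zero]
      rw [hR, hR2, sum_sub_distrib, ← sum_mul, ← hU, hL]
      ring

/-- the tail of the gap law dominates partial sums beyond `j` -/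
lemma sum_le_H (G : GapLaw g) (j K : ℕ) :
    ∑ m ∈ range K, (if j + 1 ≤ m then g m else 0) ≤ H g j := by
  have h1 : ∑ m ∈ range (j + 1), g m + ∑ m ∈ range (K + j + 1), (if j + 1 ≤ m then g m else 0)
      = ∑ m ∈ range (K + j + 1), g m := by
    have h2 : ∑ m ∈ range (j + 1), g m
        = ∑ m ∈ range (K + j + 1), (if j + 1 ≤ m then 0 else g m) := by
      refine Eq.trans ?_ (sum_subset (range_mono (show j + 1 ≤ K + j + 1 by omega)) ?_)
      · refine sum_congr rfl fun k hk => ?_
        rw [mem_range] at hk
        rw [if_neg (by omega)]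
      · intro k hk hk'
        rw [mem_range] at hk hk'
        rw [if_pos (by omega)]
    rw [h2, ← sum_add_distrib]
    refine sum_congr rfl fun m _ => ?_
    split_ifs <;> simp
  have h2 := G.sum_le (K + j + 1)
  have h3 : ∑ m ∈ range K, (if j + 1 ≤ m then g m else 0)
      ≤ ∑ m ∈ range (K + j + 1), (if j + 1 ≤ m then g m else 0) := by
    refine sum_le_sum_of_subset_of_nonneg (range_mono (by omega)) fun m _ _ => ?_
    split_ifs
    · exact G.nonneg m
    · exact le_rfl
  unfold H
  linarith

/-- first bound on the covering probability -/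
lemma A_le (G : GapLaw g) (r y : ℕ) (hr : 0 < r) (h : ∀ w < r, 1 / 2 ≤ u g w) :
    u g (y + r) ≤ u g y * u g r + ∑ v ∈ range r, u g v * u g (r - 1 - v) * H g (r - v) := by
  rw [A_formula G r (y + r + 1) y (by omega)]
  have h1 : ∀ m ∈ range (y + r + 1), g m * Jx g r y m
      ≤ ∑ v ∈ range r, u g v * u g (r - 1 - v) * (if r - v + 1 ≤ m then g m else 0) := by
    intro m hm
    rw [mem_range] at hm
    have h2 : Jx g r y m ≤ J g r (r + 1 - m) (r - 1) := by
      unfold Jx
      rw [if_pos (by omega)]
      exact J_le G r _ hr h _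
    refine (mul_le_mul_of_nonneg_left h2 (G.nonneg m)).trans (le_of_eq ?_)
    unfold J W
    rw [mul_sum]
    refine sum_congr rfl fun v hv => ?_
    rw [mem_range] at hv
    unfold uu
    rw [if_pos (by omega)]
    by_cases h3 : r + 1 - m ≤ v
    · rw [if_pos (by omega : r - v + 1 ≤ m)]
      simp only [h3, if_true]
      ring
    · rw [if_neg (by omega : ¬ r - v + 1 ≤ m)]
      simp only [h3, if_false]
      ring
  have h4 : ∑ m ∈ range (y + r + 1), g m * Jx g r y m
      ≤ ∑ v ∈ range r, u g v * u g (r - 1 - v) * H g (r - v) := by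
    refine (sum_le_sum h1).trans ?_
    rw [sum_comm]
    refine sum_le_sum fun v _ => ?_
    rw [← mul_sum]
    exact mul_le_mul_of_nonneg_left (sum_le_H G _ _)
      (mul_nonneg (u_nonneg G.nonneg _) (u_nonneg G.nonneg _))
  linarith

/-- `V = - log u` -/
noncomputable def V (g : ℕ → ℝ) (n : ℕ) : ℝ := - Real.log (u g n)

lemma u_pos (G : GapLaw g) (h1 : 0 < g 1) (n : ℕ) : 0 < u g n := by
  have h2 := u_pow_le G 1 n
  rw [u_one G.zero, mul_one] at h2
  exact (pow_pos h1 n).trans_le h2

/-- entropy inequality -/
lemma entropy (G : GapLaw g) (h1 : 0 < g 1) (r : ℕ) :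
    ∑ w ∈ range (r + 1), (if 1 ≤ w then u g (r - w) * (u g w * H g w) else 0) ≤ u g r * V g r := by
  induction r using Nat.strong_induction_on with
  | _ r ih =>
    rcases Nat.eq_zero_or_pos r with rfl | hr
    · simp [V, u_zero]
    · -- recursion
      have hW : ∀ z, W g (fun w => if 1 ≤ w then u g w * H g w else 0) (r + 1) z
          = ∑ w ∈ range (r + 1), (if 1 ≤ w ∧ w ≤ z then u g (z - w) * (u g w * H g w) else 0) := by
        intro z
        unfold W uu
        refine sum_congr rfl fun w _ => ?_
        by_cases h2 : 1 ≤ w <;> by_cases h3 : w ≤ z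
        · simp only [h2, h3, if_true, and_self]; ring
        · simp [h2, h3]
        · simp [h2, h3]
        · simp [h2, h3]
      have hz : ∀ z ≤ r, W g (fun w => if 1 ≤ w then u g w * H g w else 0) (r + 1) z
          = ∑ w ∈ range (z + 1), (if 1 ≤ w then u g (z - w) * (u g w * H g w) else 0) := by
        intro z hzr
        rw [hW]
        symm
        refine Eq.trans ?_ (sum_subset (range_mono (show z + 1 ≤ r + 1 by omega)) ?_)
        · refine sum_congr rfl fun k hk => ?_
          rw [mem_range] at hk
          by_cases h2 : 1 ≤ k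
          · rw [if_pos h2, if_pos ⟨h2, by omega⟩]
          · rw [if_neg h2, if_neg (fun h' => h2 h'.1)]
        · intro k hk hk'
          rw [mem_range] at hk hk'
          rw [if_neg (by omega)]
      have hrec := W_rec G.zero (fun w => if 1 ≤ w then u g w * H g w else 0) (r + 1) r
      rw [hz r le_rfl] at hrec
      rw [hrec, if_pos (by omega), if_pos (by omega : 1 ≤ r)]
      have h5 : ∑ m ∈ range (r + 1), g m * W g (fun w => if 1 ≤ w then u g w * H g w else 0)
          (r + 1) (r - m) ≤ ∑ m ∈ range (r + 1), g m * (u g (r - m) * V g (r - m)) := by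
        refine sum_le_sum fun m hm => ?_
        rw [mem_range] at hm
        rcases Nat.eq_zero_or_pos m with rfl | hm0
        · rw [G.zero, zero_mul, zero_mul]
        · rw [hz (r - m) (by omega)]
          exact mul_le_mul_of_nonneg_left (ih (r - m) (by omega)) (G.nonneg m)
      have hur := u_pos G h1 r
      have h6 : ∀ m ∈ range (r + 1), g m * (u g (r - m) * V g (r - m))
          ≤ g m * (u g (r - m) * V g r) + (u g r * g m - g m * u g (r - m)) := by
        intro m _
        have hum := u_pos G h1 (r - m)
        have h7 : Real.log (u g r / u g (r - m)) ≤ u g r / u g (r - m) - 1 :=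
          Real.log_le_sub_one_of_pos (div_pos hur hum)
        rw [Real.log_div hur.ne' hum.ne'] at h7
        have h8 : u g (r - m) * (Real.log (u g r) - Real.log (u g (r - m)))
            ≤ u g r - u g (r - m) := by
          have := mul_le_mul_of_nonneg_left h7 hum.le
          rw [mul_sub (u g (r - m)) (u g r / u g (r - m)) 1, mul_div_cancel₀ _ hum.ne', mul_one]
            at this
          exact this
        have h9 := mul_le_mul_of_nonneg_left h8 (G.nonneg m)
        unfold V
        nlinarith
      have h10 := sum_le_sum h6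
      rw [sum_add_distrib, sum_sub_distrib, ← mul_sum, ← u_rec G.zero r hr] at h10
      have h11 : ∑ m ∈ range (r + 1), g m * (u g (r - m) * V g r) = u g r * V g r := by
        rw [u_rec G.zero r hr, sum_mul]
        exact sum_congr rfl fun m _ => by ring
      rw [h11] at h10
      have h12 : u g r * H g r = u g r - u g r * ∑ m ∈ range (r + 1), g m := by
        unfold H; ring
      linarith

lemma u_step (G : GapLaw g) (n : ℕ) : g 1 * u g n ≤ u g (n + 1) := by
  have := u_mul_le G 1 n
  rw [u_one G.zero, add_comm] at this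
  exact this

/-- the main one-step inequality -/
lemma key (G : GapLaw g) (h1 : 0 < g 1) (r y : ℕ) (hr : 0 < r) (h : ∀ w < r, 1 / 2 ≤ u g w) :
    u g (y + r) ≤ u g r * (u g y + (g 1)⁻¹ * V g r) := by
  have h2 := A_le G r y hr h
  have h3 := entropy G h1 r
  have h4 : ∑ v ∈ range r, u g v * u g (r - 1 - v) * H g (r - v)
      ≤ (g 1)⁻¹ * ∑ w ∈ range (r + 1), (if 1 ≤ w then u g (r - w) * (u g w * H g w) else 0) := by
    rw [sum_range_succ', if_neg (by omega), add_zero,
      ← sum_range_reflect (fun v => u g v * u g (r - 1 - v) * H g (r - v)) r, mul_sum]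
    refine sum_le_sum fun k hk => ?_
    rw [mem_range] at hk
    rw [if_pos (by omega), show r - 1 - k = r - (k + 1) by omega,
      show r - 1 - (r - (k + 1)) = k by omega, show r - (r - (k + 1)) = k + 1 by omega]
    have h5 : u g k ≤ (g 1)⁻¹ * u g (k + 1) := by
      rw [← div_eq_inv_mul, le_div_iff₀ h1, mul_comm]
      exact u_step G k
    have h6 : 0 ≤ u g (r - (k + 1)) * H g (k + 1) :=
      mul_nonneg (u_nonneg G.nonneg _) (H_nonneg G _)
    have h7 := mul_le_mul_of_nonneg_left h5 h6
    linarith
  have h5 : 0 ≤ (g 1)⁻¹ := (inv_pos.mpr h1).le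
  have h6 := mul_le_mul_of_nonneg_left h3 h5
  nlinarith

lemma near_bound (c m t : ℝ) (hc : 0 < c) (ht : 0 < t) :
    t * (m + c * (- Real.log t)) ≤ c * Real.exp (m / c - 1) := by
  set s : ℝ := t / Real.exp (m / c - 1) with hs
  have hs0 : 0 < s := div_pos ht (Real.exp_pos _)
  have hts : t = s * Real.exp (m / c - 1) := by rw [hs]; field_simp
  have hlog : Real.log t = Real.log s + (m / c - 1) := by
    rw [hts, Real.log_mul hs0.ne' (Real.exp_pos _).ne', Real.log_exp]
  have h1 : Real.log s⁻¹ ≤ s⁻¹ - 1 := Real.log_le_sub_one_of_pos (inv_pos.mpr hs0)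
  rw [Real.log_inv] at h1
  have h2 : s * (1 - Real.log s) ≤ 1 := by
    have := mul_le_mul_of_nonneg_left h1 hs0.le
    rw [mul_sub, mul_inv_cancel₀ hs0.ne', mul_one] at this
    linarith
  have h3 : t * (m + c * (- Real.log t)) = c * Real.exp (m / c - 1) * (s * (1 - Real.log s)) := by
    rw [hlog]
    rw [hts]
    field_simp
    ring
  rw [h3]
  exact mul_le_of_le_one_right (mul_nonneg hc.le (Real.exp_pos _).le) h2

lemma far_bound (c L t : ℝ) (hc : 0 < c) (ht : 0 < t) (ht2 : t ≤ 1 / 2)
    (hL : c * Real.log 2 ≤ L) : t * (L + c * (- Real.log t)) ≤ L := by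
  set s : ℝ := 2 * t with hs
  have hs0 : 0 < s := by positivity
  have hs1 : s ≤ 1 := by rw [hs]; linarith
  have hlog : Real.log t = Real.log s - Real.log 2 := by
    rw [hs, Real.log_mul (by norm_num) ht.ne']; ring
  have hlog2 : 1 / 2 < Real.log 2 := by have := Real.log_two_gt_d9; linarith
  have h1 : Real.log s⁻¹ ≤ s⁻¹ - 1 := Real.log_le_sub_one_of_pos (inv_pos.mpr hs0)
  rw [Real.log_inv] at h1
  have h2 : s * (- Real.log s) ≤ 1 - s := by
    have := mul_le_mul_of_nonneg_left h1 hs0.le
    rw [mul_sub, mul_inv_cancel₀ hs0.ne', mul_one] at this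
    linarith
  have h3 : t = s / 2 := by rw [hs]; ring
  rw [hlog, h3]
  have h4 : c ≤ L + c * Real.log 2 := by nlinarith
  have h5 := mul_le_mul_of_nonneg_left h2 hc.le
  have h6 := mul_le_mul_of_nonneg_right h4 (show 0 ≤ 1 - s by linarith)
  nlinarith

/-- **Discrete theorem.** -/
theorem disc (G : GapLaw g) (h1 : 0 < g 1) (y : ℕ) : ∀ x, y ≤ x →
    u g x ≤ max ((g 1)⁻¹ * Real.exp (u g y / (g 1)⁻¹ - 1)) ((g 1)⁻¹ * Real.log 2) := by
  set c : ℝ := (g 1)⁻¹ with hc
  have hc0 : 0 < c := inv_pos.mpr h1
  set L : ℝ := max (c * Real.exp (u g y / c - 1)) (c * Real.log 2) with hL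
  intro x
  induction x using Nat.strong_induction_on with
  | _ x ih =>
    intro hyx
    rcases Nat.eq_or_lt_of_le hyx with rfl | hlt
    · refine le_trans ?_ (le_max_left _ _)
      have h2 := Real.add_one_le_exp (u g y / c - 1)
      have h3 := mul_le_mul_of_nonneg_left h2 hc0.le
      have h4 : c * (u g y / c - 1 + 1) = u g y := by field_simp; ring
      linarith
    · by_cases hcase : ∀ w < x - y, 1 / 2 ≤ u g w
      · have h2 := key G h1 (x - y) y (by omega) hcase
        rw [show y + (x - y) = x by omega] at h2
        exact h2.trans ((near_bound c (u g y) _ hc0 (u_pos G h1 _)).trans (le_max_left _ _))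
      · push Not at hcase
        have hex : ∃ w, u g w < 1 / 2 := by
          obtain ⟨w, -, hw⟩ := hcase
          exact ⟨w, hw⟩
        classical
        set r : ℕ := Nat.find hex with hr
        have hr1 : u g r < 1 / 2 := Nat.find_spec hex
        have hr2 : ∀ w < r, 1 / 2 ≤ u g w := fun w hw => not_lt.mp (Nat.find_min hex hw)
        have hrx : r < x - y := by
          obtain ⟨w, hw, hw2⟩ := hcase
          exact (Nat.find_min' hex hw2).trans_lt hw
        have hr0 : 0 < r := by
          rcases Nat.eq_zero_or_pos r with h0 | h0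
          · rw [h0, u_zero] at hr1; norm_num at hr1
          · exact h0
        have h2 := key G h1 r (x - r) hr0 hr2
        rw [show x - r + r = x by omega] at h2
        have h3 := ih (x - r) (by omega) (by omega)
        have hur := u_pos G h1 r
        refine h2.trans (le_trans ?_ (far_bound c L (u g r) hc0 hur hr1.le (le_max_right _ _)))
        refine mul_le_mul_of_nonneg_left ?_ hur.le
        unfold V
        linarith

end Pool.Agent.N99PF.Disc
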