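import Pool.Agent.N99PF.Lim

/-!
The p-function with a single excursion length.
-/

set_option autoImplicit false

open Filter Topology MeasureTheory
open scoped NNReal

namespace Pool.Agent.N99PF.Ex

open Pool.Agent.Helper945.RenCore Pool.Agent.N99PF Pool.Agent.N99PF.Skel Pool.Agent.N99PF.Lim

lemma u_add_le {g : ℕ → ℝ} (G : GapLaw g) (r : ℕ) :
    ∀ y, u g (y + r) ≤ u g y * u g r + (1 - u g y) := by
  intro y
  induction y using Nat.strong_induction_on with
  | _ y ih =>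
    rcases Nat.eq_zero_or_pos y with rfl | hy
    · rw [u_zero]; simp
    · have h1 : u g (y + r) ≤ ∑ m ∈ Finset.range (y + r + 1),
          (if m ≤ y then g m * (u g (y - m) * u g r - u g (y - m)) + g m else g m) := by
        rw [u_rec G.zero (y + r) (by omega)]
        refine Finset.sum_le_sum fun m hm => ?_
        rcases Nat.eq_zero_or_pos m with rfl | hm0
        · simp [G.zero]
        split_ifs with h2
        · have h3 := ih (y - m) (by omega)
          have h4 := mul_le_mul_of_nonneg_left h3 (G.nonneg m)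
          rw [show y - m + r = y + r - m by omega] at h4
          linarith
        · exact mul_le_of_le_one_right (G.nonneg m) (u_le_one G _)
      have h2 : ∑ m ∈ Finset.range (y + r + 1),
          (if m ≤ y then g m * (u g (y - m) * u g r - u g (y - m)) + g m else g m)
          = ∑ m ∈ Finset.range (y + 1), g m * (u g (y - m) * u g r - u g (y - m))
            + ∑ m ∈ Finset.range (y + r + 1), g m := by
        have h3 : ∑ m ∈ Finset.range (y + 1), g m * (u g (y - m) * u g r - u g (y - m))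
            = ∑ m ∈ Finset.range (y + r + 1),
              (if m ≤ y then g m * (u g (y - m) * u g r - u g (y - m)) else 0) := by
          refine Eq.trans ?_ (Finset.sum_subset
            (Finset.range_mono (show y + 1 ≤ y + r + 1 by omega)) ?_)
          · refine Finset.sum_congr rfl fun k hk => ?_
            rw [Finset.mem_range] at hk
            rw [if_pos (by omega)]
          · intro k hk hk'
            rw [Finset.mem_range] at hk hk'
            rw [if_neg (by omega)]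
        rw [h3, ← Finset.sum_add_distrib]
        refine Finset.sum_congr rfl fun m _ => ?_
        split_ifs <;> simp
      have h3 : ∑ m ∈ Finset.range (y + 1), g m * (u g (y - m) * u g r - u g (y - m))
          = u g y * u g r - u g y := by
        rw [u_rec G.zero y hy, Finset.sum_mul, ← Finset.sum_sub_distrib]
        exact Finset.sum_congr rfl fun m _ => by ring
      have h4 := G.sum_le (y + r + 1)
      rw [h2, h3] at h1
      linarith

lemma u_dist {g : ℕ → ℝ} (G : GapLaw g) (r y : ℕ) : |u g (y + r) - u g r| ≤ 1 - u g y := by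
  have h1 := u_add_le G r y
  have h2 := u_mul_le G y r
  have h3 := u_le_one G r
  have h4 := u_le_one G y
  have h5 := u_nonneg G.nonneg r
  have h6 := u_nonneg G.nonneg y
  rw [abs_le]
  constructor <;> nlinarith

/-- gap law with the two atoms `1` and `m` -/
noncomputable def gl (q : ℝ) (m k : ℕ) : ℝ :=
  (if k = 1 then q else 0) + (if k = m then 1 - q else 0)

lemma gl_gap (q : ℝ) (m : ℕ) (hq0 : 0 ≤ q) (hq1 : q ≤ 1) (hm : 1 ≤ m) : GapLaw (gl q m) where
  zero := by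
    unfold gl
    rw [if_neg (by omega), if_neg (by omega), add_zero]
  nonneg n := by
    unfold gl
    split_ifs <;> linarith
  sum_le n := by
    unfold gl
    rw [Finset.sum_add_distrib, Finset.sum_ite_eq', Finset.sum_ite_eq']
    split_ifs <;> linarith

lemma gl_rec (q : ℝ) (m : ℕ) (hq0 : 0 ≤ q) (hq1 : q ≤ 1) (hm : 1 ≤ m) (n : ℕ) (hn : 0 < n) :
    u (gl q m) n = q * u (gl q m) (n - 1) + (if m ≤ n then (1 - q) * u (gl q m) (n - m) else 0) := by
  have G := gl_gap q m hq0 hq1 hm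
  rw [u_rec G.zero n hn]
  have h1 : ∀ k ∈ Finset.range (n + 1), gl q m k * u (gl q m) (n - k)
      = (if k = 1 then q * u (gl q m) (n - k) else 0)
        + (if k = m then (1 - q) * u (gl q m) (n - k) else 0) := by
    intro k _
    conv_lhs => rw [gl]
    rw [add_mul]
    congr 1 <;> split_ifs <;> simp
  rw [Finset.sum_congr rfl h1, Finset.sum_add_distrib, Finset.sum_ite_eq', Finset.sum_ite_eq']
  congr 1
  · rw [if_pos (by rw [Finset.mem_range]; omega)]
  · by_cases h : m ≤ n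
    · rw [if_pos h, if_pos (by rw [Finset.mem_range]; omega)]
    · rw [if_neg h, if_neg (by rw [Finset.mem_range]; omega)]

lemma gl_small (q : ℝ) (m : ℕ) (hq0 : 0 ≤ q) (hq1 : q ≤ 1) (hm : 1 ≤ m) :
    ∀ n, n < m → u (gl q m) n = q ^ n := by
  intro n
  induction n with
  | zero => intro _; rw [u_zero, pow_zero]
  | succ n ih =>
    intro h
    rw [gl_rec q m hq0 hq1 hm (n + 1) (by omega), if_neg (by omega), add_zero,
      Nat.add_sub_cancel, ih (by omega), pow_succ]
    ring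

lemma gl_mid (q : ℝ) (m : ℕ) (hq0 : 0 ≤ q) (hq1 : q ≤ 1) (hm : 1 ≤ m) :
    ∀ k, k < m → u (gl q m) (m + k) = q ^ (m + k) + (k + 1) * (q ^ k * (1 - q)) := by
  intro k
  induction k with
  | zero =>
    intro _
    rw [add_zero, gl_rec q m hq0 hq1 hm m (by omega), if_pos le_rfl, Nat.sub_self, u_zero,
      gl_small q m hq0 hq1 hm (m - 1) (by omega)]
    obtain ⟨m', rfl⟩ : ∃ m', m = m' + 1 := ⟨m - 1, by omega⟩
    rw [Nat.add_sub_cancel, pow_succ]
    push_cast
    ring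
  | succ k ih =>
    intro h
    rw [gl_rec q m hq0 hq1 hm (m + (k + 1)) (by omega), if_pos (by omega),
      show m + (k + 1) - 1 = m + k by omega, show m + (k + 1) - m = k + 1 by omega,
      ih (by omega), gl_small q m hq0 hq1 hm (k + 1) (by omega)]
    push_cast
    rw [show m + (k + 1) = (m + k) + 1 by omega, pow_succ q (m + k), pow_succ q k]
    ring

section

variable (lam : ℝ) (a : ℝ≥0)

/-- the discretisation -/
noncomputable def us (j : ℕ) : ℕ → ℝ :=
  u (gl (Real.exp (-(lam / (j + 1 : ℕ)))) (⌊a * ((j + 1 : ℕ) : ℝ≥0)⌋₊ + 1))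

variable {lam a} (hl : 0 ≤ lam)

include hl

lemma q_mem (j : ℕ) : 0 ≤ Real.exp (-(lam / (j + 1 : ℕ))) ∧ Real.exp (-(lam / (j + 1 : ℕ))) ≤ 1 := by
  refine ⟨(Real.exp_pos _).le, ?_⟩
  rw [Real.exp_le_one_iff]
  have : 0 ≤ lam / (j + 1 : ℕ) := by positivity
  linarith

lemma us_gap (j : ℕ) :
    GapLaw (gl (Real.exp (-(lam / (j + 1 : ℕ)))) (⌊a * ((j + 1 : ℕ) : ℝ≥0)⌋₊ + 1)) :=
  gl_gap _ _ (q_mem hl j).1 (q_mem hl j).2 (by omega)

lemma us_low (j n : ℕ) : 1 - lam * (n / (j + 1 : ℕ)) ≤ us lam a j n := by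
  have G := us_gap (a := a) hl j
  have h1 := u_pow_le G 1 n
  rw [mul_one, u_one G.zero] at h1
  have h2 : Real.exp (-(lam / (j + 1 : ℕ))) ≤ gl (Real.exp (-(lam / (j + 1 : ℕ))))
      (⌊a * ((j + 1 : ℕ) : ℝ≥0)⌋₊ + 1) 1 := by
    unfold gl
    rw [if_pos rfl]
    have := (q_mem hl j).2
    split_ifs <;> linarith
  have h3 := pow_le_pow_left₀ (q_mem hl j).1 h2 n
  rw [← Real.exp_nat_mul] at h3
  have h4 := Real.add_one_le_exp ((n : ℝ) * -(lam / (j + 1 : ℕ)))
  have h5 : (n : ℝ) * -(lam / (j + 1 : ℕ)) = - (lam * (n / (j + 1 : ℕ))) := by ring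
  rw [h5] at h3 h4
  unfold us
  linarith

lemma us_dist (j b c : ℕ) : |us lam a j b - us lam a j c|
    ≤ lam * |(b : ℝ) / (j + 1 : ℕ) - c / (j + 1 : ℕ)| := by
  have G := us_gap (a := a) hl j
  rcases le_total b c with h | h
  · obtain ⟨d, rfl⟩ : ∃ d, c = d + b := ⟨c - b, by omega⟩
    have h1 := u_dist G b d
    have h2 := us_low (a := a) hl j d
    rw [abs_sub_comm]
    have h3 : (b : ℝ) / (j + 1 : ℕ) - ((d + b : ℕ) : ℝ) / (j + 1 : ℕ) = -(d / (j + 1 : ℕ)) := by
      push_cast; ring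
    rw [h3, abs_neg, abs_of_nonneg (show 0 ≤ (d : ℝ) / (j + 1 : ℕ) by positivity)]
    unfold us at h2 ⊢
    linarith
  · obtain ⟨d, rfl⟩ : ∃ d, b = d + c := ⟨b - c, by omega⟩
    have h1 := u_dist G c d
    have h2 := us_low (a := a) hl j d
    have h3 : ((d + c : ℕ) : ℝ) / (j + 1 : ℕ) - (c : ℝ) / (j + 1 : ℕ) = (d / (j + 1 : ℕ)) := by
      push_cast; ring
    rw [h3, abs_of_nonneg (show 0 ≤ (d : ℝ) / (j + 1 : ℕ) by positivity)]
    unfold us at h2 ⊢
    linarith

lemma us_mem (j n : ℕ) : us lam a j n ∈ Set.Icc (0 : ℝ) 1 := by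
  have G := us_gap (a := a) hl j
  exact ⟨u_nonneg G.nonneg n, u_le_one G n⟩

lemma exists_val (t : ℝ≥0) : ∃ c, Tendsto (fun j => us lam a j ⌊t * ((j + 1 : ℕ) : ℝ≥0)⌋₊)
    (hyperfilter ℕ : Filter ℕ) (𝓝 c) := by
  obtain ⟨c, -, hc⟩ := isCompact_Icc.ultrafilter_le_nhds'
    ((hyperfilter ℕ).map (fun j => us lam a j ⌊t * ((j + 1 : ℕ) : ℝ≥0)⌋₊))
    (Ultrafilter.mem_map.mpr (Filter.univ_mem' fun j => us_mem hl j _))
  exact ⟨c, hc⟩

/-- the p-function -/
noncomputable def pe (t : ℝ≥0) : ℝ := Classical.choose (exists_val (a := a) hl t)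

lemma pe_spec (t : ℝ≥0) : Tendsto (fun j => us lam a j ⌊t * ((j + 1 : ℕ) : ℝ≥0)⌋₊)
    (hyperfilter ℕ : Filter ℕ) (𝓝 (pe (a := a) hl t)) :=
  Classical.choose_spec (exists_val (a := a) hl t)

omit hl in
lemma hyper_le : (hyperfilter ℕ : Filter ℕ) ≤ atTop := by
  rw [← Nat.cofinite_eq_atTop]; exact hyperfilter_le_cofinite

omit hl in
lemma floor_lim (t : ℝ≥0) : Tendsto (fun j : ℕ => ((⌊t * ((j + 1 : ℕ) : ℝ≥0)⌋₊ : ℕ) : ℝ)
    / ((j + 1 : ℕ) : ℝ)) atTop (𝓝 (t : ℝ)) := by
  have h1 := tendsto_floor (fun j => j + 1) (tendsto_add_atTop_nat 1) t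
  rw [← NNReal.tendsto_coe] at h1
  refine h1.congr fun j => ?_
  simp

lemma pe_conv (b : ℕ → ℕ) (t : ℝ≥0)
    (hb : Tendsto (fun j => ((b j : ℕ) : ℝ≥0) / ((j + 1 : ℕ) : ℝ≥0)) (hyperfilter ℕ : Filter ℕ)
      (𝓝 t)) :
    Tendsto (fun j => us lam a j (b j)) (hyperfilter ℕ : Filter ℕ) (𝓝 (pe (a := a) hl t)) := by
  have h1 := pe_spec (a := a) hl t
  have hb' : Tendsto (fun j => ((b j : ℕ) : ℝ) / ((j + 1 : ℕ) : ℝ)) (hyperfilter ℕ : Filter ℕ)
      (𝓝 (t : ℝ)) := by
    rw [← NNReal.tendsto_coe] at hb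
    refine hb.congr fun j => ?_
    simp
  have h2 := (hb'.sub ((floor_lim t).mono_left hyper_le)).abs.const_mul lam
  rw [sub_self, abs_zero, mul_zero] at h2
  have h3 : Tendsto (fun j => us lam a j (b j) - us lam a j ⌊t * ((j + 1 : ℕ) : ℝ≥0)⌋₊)
      (hyperfilter ℕ : Filter ℕ) (𝓝 0) :=
    squeeze_zero_norm (fun j => us_dist hl j _ _) h2
  have h4 := h3.add h1
  simpa using h4

lemma pe_zero : pe (a := a) hl 0 = 1 := by
  refine tendsto_nhds_unique (pe_spec (a := a) hl 0) ?_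
  have : ∀ j : ℕ, us lam a j ⌊(0 : ℝ≥0) * ((j + 1 : ℕ) : ℝ≥0)⌋₊ = 1 := by
    intro j
    rw [zero_mul, Nat.floor_zero]
    exact u_zero _
  simp_rw [this]
  exact tendsto_const_nhds

lemma pe_isPFunction : IsPFunction (pe (a := a) hl) := by
  obtain ⟨P, hP, h⟩ := exists_process (pe (a := a) hl) (fun j => j + 1) (tendsto_add_atTop_nat 1)
    (fun j k => gl (Real.exp (-(lam / (j + 1 : ℕ)))) (⌊a * ((j + 1 : ℕ) : ℝ≥0)⌋₊ + 1) (k + 1))
    (fun j => us lam a j)
    (fun j k => (us_gap hl j).nonneg _)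
    (fun j n => by
      have G := us_gap (a := a) hl j
      have h1 := G.sum_le (n + 1)
      rw [Finset.sum_range_succ', G.zero, add_zero] at h1
      exact h1)
    (fun j => u_zero _)
    (fun j n => by
      have G := us_gap (a := a) hl j
      unfold us
      rw [u_rec G.zero (n + 1) (by omega), Finset.sum_range_succ', G.zero, zero_mul, add_zero]
      exact Finset.sum_congr rfl fun k _ => by rw [Nat.add_sub_add_right])
    (fun b t hb => pe_conv hl b t hb)
  exact isPFunction_of_process _ (pe_zero hl) P hP h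

lemma pe_low (t : ℝ≥0) : 1 - lam * t ≤ pe (a := a) hl t := by
  refine ge_of_tendsto (pe_spec (a := a) hl t) (Eventually.of_forall fun j => ?_)
  refine le_trans ?_ (us_low hl j _)
  have h1 : ((⌊t * ((j + 1 : ℕ) : ℝ≥0)⌋₊ : ℕ) : ℝ) / ((j + 1 : ℕ) : ℝ) ≤ t := by
    rw [div_le_iff₀ (by positivity)]
    have := Nat.floor_le (a := t * ((j + 1 : ℕ) : ℝ≥0)) zero_le
    exact_mod_cast this
  have := mul_le_mul_of_nonneg_left h1 hl
  linarith

lemma pe_isStd : IsStd (pe (a := a) hl) := by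
  have hp := pe_isPFunction (a := a) hl
  refine ⟨hp, ?_⟩
  have h1 : Tendsto (fun t : ℝ≥0 => 1 - lam * t) (𝓝 0) (𝓝 1) := by
    have : Continuous (fun t : ℝ≥0 => 1 - lam * t) := by fun_prop
    have h2 := this.tendsto 0
    simpa using h2
  exact tendsto_of_tendsto_of_tendsto_of_le_of_le h1 tendsto_const_nhds
    (fun t => pe_low hl t) (fun t => (hp.2.1 t).2)

lemma pe_a : pe (a := a) hl a = Real.exp (-(lam * a)) := by
  refine tendsto_nhds_unique (pe_spec (a := a) hl a) ?_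
  have h1 : ∀ j : ℕ, us lam a j ⌊a * ((j + 1 : ℕ) : ℝ≥0)⌋₊
      = Real.exp (-(lam * (((⌊a * ((j + 1 : ℕ) : ℝ≥0)⌋₊ : ℕ) : ℝ) / ((j + 1 : ℕ) : ℝ)))) := by
    intro j
    unfold us
    rw [gl_small _ _ (q_mem hl j).1 (q_mem hl j).2 (by omega) _ (Nat.lt_succ_self _),
      ← Real.exp_nat_mul]
    congr 1
    ring
  simp_rw [h1]
  refine (Real.continuous_exp.tendsto _).comp ?_
  exact (((floor_lim a).mono_left hyper_le).const_mul lam).neg

lemma pe_one (ha : 1 / 2 ≤ a) (ha1 : a < 1) :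
    pe (a := a) hl 1 = Real.exp (-lam) + lam * (1 - a) * Real.exp (-(lam * (1 - a))) := by
  refine tendsto_nhds_unique (pe_conv (a := a) hl (fun j => j + 1) 1 ?_) ?_
  · have : ∀ j : ℕ, ((j + 1 : ℕ) : ℝ≥0) / ((j + 1 : ℕ) : ℝ≥0) = 1 := by
      intro j
      exact div_self (by positivity)
    simp_rw [this]
    exact tendsto_const_nhds
  refine Tendsto.mono_left ?_ hyper_le
  have hval : ∀ j : ℕ, us lam a j (j + 1) = Real.exp (-lam)
      + (1 - ((⌊a * ((j + 1 : ℕ) : ℝ≥0)⌋₊ : ℕ) : ℝ) / ((j + 1 : ℕ) : ℝ))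
        * (Real.exp (-(lam * (1 - ((⌊a * ((j + 1 : ℕ) : ℝ≥0)⌋₊ : ℕ) : ℝ) / ((j + 1 : ℕ) : ℝ)
            - 1 / ((j + 1 : ℕ) : ℝ))))
          * (((j + 1 : ℕ) : ℝ) * (1 - Real.exp (-(lam / (j + 1 : ℕ)))))) := by
    intro j
    set N : ℕ := j + 1 with hN
    set F : ℕ := ⌊a * (N : ℝ≥0)⌋₊ with hF
    have hNpos : (0 : ℝ≥0) < N := by rw [hN]; positivity
    have hF1 : F < N := by
      rw [hF, Nat.floor_lt zero_le]
      exact mul_lt_of_lt_one_left hNpos ha1
    have hF2 : N < 2 * (F + 1) := by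
      have h1 : a * (N : ℝ≥0) < F + 1 := Nat.lt_floor_add_one _
      have h2 : (N : ℝ≥0) / 2 ≤ a * N := by
        calc (N : ℝ≥0) / 2 = 1 / 2 * N := by ring
          _ ≤ a * N := by gcongr
      have h3 : (N : ℝ≥0) / 2 < F + 1 := h2.trans_lt h1
      have h4 : (N : ℝ≥0) < (F + 1) * 2 := by rwa [div_lt_iff₀ (by norm_num)] at h3
      have h5 : N < (F + 1) * 2 := by exact_mod_cast h4
      omega
    have h6 := gl_mid (Real.exp (-(lam / N))) (F + 1) (q_mem hl j).1 (q_mem hl j).2 (by omega)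
      (N - (F + 1)) (by omega)
    rw [show F + 1 + (N - (F + 1)) = N by omega] at h6
    have hN' : (N : ℝ) ≠ 0 := by rw [hN]; positivity
    unfold us
    rw [← hN, ← hF, h6, ← Real.exp_nat_mul, ← Real.exp_nat_mul, Nat.cast_sub (by omega)]
    have e1 : (N : ℝ) * -(lam / N) = -lam := by field_simp
    have e2 : ((N : ℝ) - ((F + 1 : ℕ) : ℝ)) * -(lam / N)
        = -(lam * (1 - (F : ℝ) / N - 1 / N)) := by
      push_cast; field_simp; ring
    rw [e1, e2]
    push_cast
    field_simp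
    ring
  simp_rw [hval]
  have l0 : Tendsto (fun j : ℕ => 1 / ((j + 1 : ℕ) : ℝ)) atTop (𝓝 0) := by
    have := tendsto_one_div_add_atTop_nhds_zero_nat (𝕜 := ℝ)
    refine this.congr fun j => ?_
    push_cast; rfl
  have l1 := (floor_lim a).const_sub 1
  have l2 : Tendsto (fun j : ℕ => ((j + 1 : ℕ) : ℝ) * (1 - Real.exp (-(lam / (j + 1 : ℕ))))) atTop
      (𝓝 lam) := by
    have hd : HasDerivAt (fun x : ℝ => 1 - Real.exp (-(lam * x))) lam 0 := by
      have h1 : HasDerivAt (fun x : ℝ => -(lam * x)) (-lam) 0 := by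
        have := (hasDerivAt_id' (0 : ℝ)).const_mul (-lam)
        simpa [neg_mul] using this
      have h2 := (h1.exp).const_sub 1
      simpa using h2
    have h3 := hd.tendsto_slope_zero
    have h4 : Tendsto (fun j : ℕ => 1 / ((j + 1 : ℕ) : ℝ)) atTop (𝓝[≠] 0) := by
      rw [tendsto_nhdsWithin_iff]
      refine ⟨l0, Eventually.of_forall fun j => ?_⟩
      rw [Set.mem_compl_iff, Set.mem_singleton_iff]
      positivity
    refine (h3.comp h4).congr fun j => ?_
    simp only [Function.comp_apply, zero_add, mul_zero, neg_zero, Real.exp_zero, sub_self,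
      sub_zero, smul_eq_mul, one_div, inv_inv]
    congr 3
  have l3 : Tendsto (fun j : ℕ => Real.exp (-(lam * (1 - ((⌊a * ((j + 1 : ℕ) : ℝ≥0)⌋₊ : ℕ) : ℝ)
      / ((j + 1 : ℕ) : ℝ) - 1 / ((j + 1 : ℕ) : ℝ))))) atTop
      (𝓝 (Real.exp (-(lam * (1 - a - 0))))) :=
    (Real.continuous_exp.tendsto _).comp (((l1.sub l0).const_mul lam).neg)
  have l4 := ((l1.mul (l3.mul l2)).const_add (Real.exp (-lam)))
  have e : Real.exp (-lam) + (1 - (a : ℝ)) * (Real.exp (-(lam * (1 - a - 0))) * lam)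
      = Real.exp (-lam) + lam * (1 - a) * Real.exp (-(lam * (1 - a))) := by
    rw [sub_zero]; ring
  rw [e] at l4
  exact l4

end

/-- The example, with its two values. -/
theorem exists_std (lam : ℝ) (hl : 0 ≤ lam) (a : ℝ≥0) (ha : 1 / 2 ≤ a) (ha1 : a < 1) :
    ∃ p : ℝ≥0 → ℝ, IsStd p ∧
      p 1 = Real.exp (-lam) + lam * (1 - a) * Real.exp (-(lam * (1 - a))) ∧
      p a = Real.exp (-(lam * a)) :=
  ⟨pe (a := a) hl, pe_isStd hl, pe_one hl ha ha1, pe_a hl⟩

end Pool.Agent.N99PF.Ex
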