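import Pool.Agent.N99PF.Skel

/-!
Locally uniform limits of renewal sequences are standard p-functions.  The construction follows
the file `Pool/Agent/Results/MP_0f714a_pr/NotInI0.lean`.
-/

set_option autoImplicit false

open Finset Filter Topology MeasureTheory
open scoped NNReal

namespace Pool.Agent.N99PF.Lim

open Pool.Agent.N99PF Pool.Agent.N99PF.Skel

/-! ## The renewal process up to a finite horizon -/

section ProcessPart

/-- the pattern with a renewal at time `0` only -/
def pat0 : ℕ → Bool := fun n => decide (n = 0)

/-- renewal at `0`, then the next renewal at `k + 1`, from which the pattern `w` is followed -/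
def shift (k : ℕ) (w : ℕ → Bool) : ℕ → Bool :=
  fun n => if n = 0 then true else if n ≤ k then false else w (n - (k + 1))

/-- expectation functional of the renewal process observed up to time `T` -/
noncomputable def Phi (f : ℕ → ℝ) (T : ℕ) (F : (ℕ → Bool) → ℝ) : ℝ :=
  (∑ k : Fin T, f k * Phi f (T - (k + 1)) (fun w => F (shift k w)))
    + (1 - ∑ k : Fin T, f k) * F pat0
termination_by T
decreasing_by
  have := k.isLt
  omega

lemma Phi_eq (f : ℕ → ℝ) (T : ℕ) (F : (ℕ → Bool) → ℝ) :
    Phi f T F = (∑ k ∈ range T, f k * Phi f (T - (k + 1)) (fun w => F (shift k w)))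
      + (1 - ∑ k ∈ range T, f k) * F pat0 := by
  rw [Phi, Finset.sum_range, Finset.sum_range]

lemma Phi_congr (f : ℕ → ℝ) (T : ℕ) (F G : (ℕ → Bool) → ℝ)
    (h : ∀ w, w 0 = true → F w = G w) : Phi f T F = Phi f T G := by
  rw [Phi_eq, Phi_eq]
  congr 1
  · apply Finset.sum_congr rfl
    intro k _
    congr 2
    funext w
    exact h _ (by simp [shift])
  · rw [h pat0 (by simp [pat0])]

lemma Phi_add (f : ℕ → ℝ) (T : ℕ) : ∀ (F G : (ℕ → Bool) → ℝ),
    Phi f T (fun w => F w + G w) = Phi f T F + Phi f T G := by
  induction T using Nat.strong_induction_on with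
  | _ T ih =>
    intro F G
    rw [Phi_eq, Phi_eq f T F, Phi_eq f T G]
    have : ∀ k ∈ range T, f k * Phi f (T - (k + 1)) (fun w => F (shift k w) + G (shift k w)) =
        f k * Phi f (T - (k + 1)) (fun w => F (shift k w)) +
        f k * Phi f (T - (k + 1)) (fun w => G (shift k w)) := by
      intro k hk
      rw [Finset.mem_range] at hk
      rw [ih _ (by omega)]
      ring
    rw [Finset.sum_congr rfl this, Finset.sum_add_distrib]
    ring

lemma Phi_smul (f : ℕ → ℝ) (T : ℕ) (c : ℝ) : ∀ (F : (ℕ → Bool) → ℝ),
    Phi f T (fun w => c * F w) = c * Phi f T F := by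
  induction T using Nat.strong_induction_on with
  | _ T ih =>
    intro F
    rw [Phi_eq, Phi_eq f T F]
    have : ∀ k ∈ range T, f k * Phi f (T - (k + 1)) (fun w => c * F (shift k w)) =
        c * (f k * Phi f (T - (k + 1)) (fun w => F (shift k w))) := by
      intro k hk
      rw [Finset.mem_range] at hk
      rw [ih _ (by omega)]
      ring
    rw [Finset.sum_congr rfl this, ← Finset.mul_sum]
    ring

lemma Phi_const (f : ℕ → ℝ) (T : ℕ) (c : ℝ) : Phi f T (fun _ => c) = c := by
  induction T using Nat.strong_induction_on with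
  | _ T ih =>
    rw [Phi_eq]
    have : ∀ k ∈ range T, f k * Phi f (T - (k + 1)) (fun _ => c) = f k * c := by
      intro k hk
      rw [Finset.mem_range] at hk
      rw [ih _ (by omega)]
    rw [Finset.sum_congr rfl this, ← Finset.sum_mul]
    ring

lemma Phi_nonneg (f : ℕ → ℝ) (hf : ∀ k, 0 ≤ f k) (hf1 : ∀ n, ∑ k ∈ range n, f k ≤ 1) (T : ℕ) :
    ∀ (F : (ℕ → Bool) → ℝ), (∀ w, 0 ≤ F w) → 0 ≤ Phi f T F := by
  induction T using Nat.strong_induction_on with
  | _ T ih =>
    intro F hF
    rw [Phi_eq]
    apply add_nonneg
    · apply Finset.sum_nonneg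
      intro k hk
      rw [Finset.mem_range] at hk
      exact mul_nonneg (hf k) (ih _ (by omega) _ (fun w => hF _))
    · exact mul_nonneg (by linarith [hf1 T]) (hF _)

lemma Phi_mono (f : ℕ → ℝ) (hf : ∀ k, 0 ≤ f k) (hf1 : ∀ n, ∑ k ∈ range n, f k ≤ 1) (T : ℕ)
    (F G : (ℕ → Bool) → ℝ) (h : ∀ w, F w ≤ G w) : Phi f T F ≤ Phi f T G := by
  have h1 := Phi_nonneg f hf hf1 T (fun w => G w + (-1) * F w) (fun w => by linarith [h w])
  rw [Phi_add f T G (fun w => (-1) * F w), Phi_smul] at h1
  linarith

/-- indicator of the set of patterns that are true at all times of `l` -/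
noncomputable def chi {T : Type*} (l : List T) (w : T → Bool) : ℝ :=
  if ∀ b ∈ l, w b = true then 1 else 0

/-- product of `u` over the successive gaps of a list of times -/
def Ud (u : ℕ → ℝ) : List ℕ → ℝ
  | [] => 1
  | b :: l => u b * Ud u (l.map (· - b))
termination_by l => l.length

lemma Ud_nil (u : ℕ → ℝ) : Ud u [] = 1 := by rw [Ud]
lemma Ud_cons (u : ℕ → ℝ) (b : ℕ) (l : List ℕ) : Ud u (b :: l) = u b * Ud u (l.map (· - b)) := by
  rw [Ud]

theorem Phi_chi (u f : ℕ → ℝ) (hu : u 0 = 1)
    (hr : ∀ n, u (n + 1) = ∑ k ∈ range (n + 1), f k * u (n - k)) (T : ℕ) :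
    ∀ l : List ℕ, l.Pairwise (· ≤ ·) → (∀ b ∈ l, b ≤ T) → Phi f T (chi l) = Ud u l := by
  induction T using Nat.strong_induction_on with
  | _ T ih =>
    intro l
    induction l with
    | nil =>
      intro _ _
      rw [Ud_nil]
      have : chi ([] : List ℕ) = fun _ => (1 : ℝ) := by
        funext w; simp [chi]
      rw [this, Phi_const]
    | cons b l ihl =>
      intro hl hT
      rcases Nat.eq_zero_or_pos b with hb | hb
      · subst hb
        rw [Ud_cons, hu, one_mul]
        have h1 : l.map (· - 0) = l := by simp
        rw [h1, ← ihl (List.Pairwise.of_cons hl) (fun c hc => hT c (List.mem_cons_of_mem _ hc))]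
        apply Phi_congr
        intro w hw
        simp [chi, hw]
      · have hbT : b ≤ T := hT b (List.mem_cons_self)
        have hge : ∀ c ∈ b :: l, b ≤ c := by
          intro c hc
          rcases List.mem_cons.mp hc with rfl | hc
          · exact le_rfl
          · exact (List.pairwise_cons.mp hl).1 c hc
        have hpat : chi (b :: l) pat0 = 0 := by
          unfold chi
          rw [if_neg]
          intro h
          have := h b List.mem_cons_self
          simp [pat0] at this
          omega
        have hterm : ∀ k ∈ range T, f k * Phi f (T - (k + 1)) (fun w => chi (b :: l) (shift k w)) =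
            (if k < b then f k * u (b - 1 - k) * Ud u (l.map (· - b)) else 0) := by
          intro k hk
          rw [Finset.mem_range] at hk
          split_ifs with hkb
          · have h2 : (fun w => chi (b :: l) (shift k w)) = chi ((b :: l).map (· - (k + 1))) := by
              funext w
              have h3 : (∀ c ∈ b :: l, shift k w c = true) ↔
                  (∀ c ∈ (b :: l).map (· - (k + 1)), w c = true) := by
                constructor
                · intro h c hc
                  obtain ⟨d, hd, rfl⟩ := List.mem_map.mp hc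
                  have h4 := h d hd
                  have h5 := hge d hd
                  simpa [shift, show d ≠ 0 by omega, show ¬ d ≤ k by omega] using h4
                · intro h d hd
                  have h5 := hge d hd
                  have h4 := h (d - (k + 1)) (List.mem_map.mpr ⟨d, hd, rfl⟩)
                  simpa [shift, show d ≠ 0 by omega, show ¬ d ≤ k by omega] using h4
              unfold chi
              by_cases h4 : ∀ c ∈ b :: l, shift k w c = true
              · rw [if_pos h4, if_pos (h3.mp h4)]
              · rw [if_neg h4, if_neg (fun h5 => h4 (h3.mpr h5))]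
            rw [h2, ih (T - (k + 1)) (by omega)]
            · rw [List.map_cons, Ud_cons, List.map_map]
              have h6 : ((fun x => x - (b - (k + 1))) ∘ fun x => x - (k + 1)) = (fun x => x - b) := by
                funext x
                simp only [Function.comp_apply]
                omega
              rw [h6, show b - (k + 1) = b - 1 - k by omega]
              ring
            · apply List.Pairwise.map _ _ hl
              intro c d hcd
              exact Nat.sub_le_sub_right hcd _
            · intro c hc
              obtain ⟨d, hd, rfl⟩ := List.mem_map.mp hc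
              have := hT d hd
              omega
          · have h2 : (fun w => chi (b :: l) (shift k w)) = fun _ => (0 : ℝ) := by
              funext w
              unfold chi
              rw [if_neg]
              intro h
              have := h b List.mem_cons_self
              simp [shift, show b ≠ 0 by omega, show b ≤ k by omega] at this
            rw [h2, Phi_const, mul_zero]
        rw [Phi_eq, hpat, mul_zero, add_zero, Finset.sum_congr rfl hterm, Ud_cons,
          ← Finset.sum_filter]
        have h7 : (range T).filter (fun k => k < b) = range b := by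
          ext k
          simp only [Finset.mem_filter, Finset.mem_range]
          omega
        rw [h7, ← Finset.sum_mul]
        congr 1
        obtain ⟨b', rfl⟩ : ∃ b', b = b' + 1 := ⟨b - 1, by omega⟩
        rw [hr b']
        rfl

end ProcessPart

/-! ## Passage to continuous time -/

section LimitPart

open scoped CompactlySupported


/-- the space of all `0/1`-valued paths on `[0,∞)` -/
def Path : Type := ℝ≥0 → Bool

instance : TopologicalSpace Path := (Pi.topologicalSpace : TopologicalSpace (ℝ≥0 → Bool))
instance : T2Space Path := (inferInstance : T2Space (ℝ≥0 → Bool))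
instance : CompactSpace Path := (inferInstance : CompactSpace (ℝ≥0 → Bool))
instance : MeasurableSpace Path := borel Path
instance : BorelSpace Path := ⟨rfl⟩

/-- embed a discrete pattern with mesh `1/N` -/
noncomputable def emb (N : ℕ) (w : ℕ → Bool) : Path := fun t => w ⌊t * N⌋₊

section

variable (N : ℕ → ℕ) (f : ℕ → ℕ → ℝ)

/-- the functional at stage `j` -/
noncomputable def Lam (F : C_c(Path, ℝ)) (j : ℕ) : ℝ :=
  Phi (f j) (j * N j) (fun w => F (emb (N j) w))

variable (hf : ∀ j k, 0 ≤ f j k) (hf1 : ∀ j n, ∑ k ∈ range n, f j k ≤ 1)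

include hf hf1

lemma exists_lim (F : C_c(Path, ℝ)) :
    ∃ c, Tendsto (Lam N f F) (hyperfilter ℕ : Filter ℕ) (𝓝 c) := by
  obtain ⟨B, hB⟩ := isCompact_univ.exists_bound_of_continuousOn
    (f := F) F.continuous.continuousOn
  have hmem : ∀ j, Lam N f F j ∈ Set.Icc (-B) B := by
    intro j
    have hb : ∀ w, -B ≤ F (emb (N j) w) ∧ F (emb (N j) w) ≤ B := by
      intro w
      have := hB (emb (N j) w) (Set.mem_univ _)
      rw [Real.norm_eq_abs, abs_le] at this
      exact this
    constructor
    · rw [← Phi_const (f j) (j * N j) (-B)]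
      exact Phi_mono _ (hf j) (hf1 j) _ _ _ (fun w => (hb w).1)
    · rw [← Phi_const (f j) (j * N j) B]
      exact Phi_mono _ (hf j) (hf1 j) _ _ _ (fun w => (hb w).2)
  obtain ⟨c, -, hc⟩ := isCompact_Icc.ultrafilter_le_nhds' ((hyperfilter ℕ).map (Lam N f F))
    (Ultrafilter.mem_map.mpr (Filter.univ_mem' hmem))
  exact ⟨c, hc⟩

/-- the limit functional -/
noncomputable def L : C_c(Path, ℝ) →ₚ[ℝ] ℝ where
  toFun F := Classical.choose (exists_lim N f hf hf1 F)
  map_add' F G := by
    apply tendsto_nhds_unique (Classical.choose_spec (exists_lim N f hf hf1 (F + G)))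
    have h := (Classical.choose_spec (exists_lim N f hf hf1 F)).add
      (Classical.choose_spec (exists_lim N f hf hf1 G))
    refine h.congr (fun j => ?_)
    exact (Phi_add (f j) (j * N j) _ _).symm
  map_smul' c F := by
    apply tendsto_nhds_unique (Classical.choose_spec (exists_lim N f hf hf1 (c • F)))
    have h := (Classical.choose_spec (exists_lim N f hf hf1 F)).const_mul c
    refine h.congr (fun j => ?_)
    exact (Phi_smul (f j) (j * N j) c _).symm
  monotone' F G hFG := by
    apply le_of_tendsto_of_tendsto' (Classical.choose_spec (exists_lim N f hf hf1 F))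
      (Classical.choose_spec (exists_lim N f hf hf1 G))
    intro j
    exact Phi_mono _ (hf j) (hf1 j) _ _ _ (fun w => hFG _)

lemma L_spec (F : C_c(Path, ℝ)) {c : ℝ}
    (h : Tendsto (Lam N f F) (hyperfilter ℕ : Filter ℕ) (𝓝 c)) : L N f hf hf1 F = c :=
  tendsto_nhds_unique (Classical.choose_spec (exists_lim N f hf hf1 F)) h

end

lemma continuous_chi (l : List ℝ≥0) : Continuous (fun w : Path => chi l w) := by
  induction l with
  | nil =>
    have : (fun w : Path => chi ([] : List ℝ≥0) w) = fun _ => 1 := by
      funext w; simp [chi]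
    rw [this]; exact continuous_const
  | cons t l ih =>
    have : (fun w : Path => chi (t :: l) w) =
        fun w : Path => (if w t = true then (1 : ℝ) else 0) * chi l w := by
      funext w
      unfold chi
      by_cases h1 : w t = true
      · rw [if_pos h1, one_mul]
        by_cases h2 : ∀ b ∈ l, w b = true
        · rw [if_pos h2, if_pos]
          intro b hb
          rcases List.mem_cons.mp hb with rfl | hb
          · exact h1
          · exact h2 b hb
        · rw [if_neg h2, if_neg]
          intro h3
          exact h2 (fun b hb => h3 b (List.mem_cons_of_mem _ hb))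
      · rw [if_neg h1, zero_mul, if_neg]
        intro h3
        exact h1 (h3 t List.mem_cons_self)
    rw [this]
    apply Continuous.mul _ ih
    have h1 : Continuous (fun b : Bool => (if b = true then (1 : ℝ) else 0)) :=
      continuous_of_discreteTopology
    have h2 : Continuous (fun w : Path => w t) := continuous_apply t
    exact h1.comp h2

/-- the indicator of a cylinder as a compactly supported continuous function -/
noncomputable def chiC (l : List ℝ≥0) : C_c(Path, ℝ) :=
  ⟨⟨fun w => chi l w, continuous_chi l⟩, HasCompactSupport.of_compactSpace _⟩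

lemma chiC_apply (l : List ℝ≥0) (w : Path) : chiC l w = chi l w := rfl


lemma tendsto_Ud (p : ℝ≥0 → ℝ) (N : ℕ → ℕ) (u : ℕ → ℕ → ℝ) (U : Filter ℕ)
    (hu : ∀ (b : ℕ → ℕ) (t : ℝ≥0), Tendsto (fun j => ((b j : ℕ) : ℝ≥0) / (N j : ℝ≥0)) U (𝓝 t) →
      Tendsto (fun j => u j (b j)) U (𝓝 (p t))) :
    ∀ (n : ℕ) (B : List (ℕ → ℕ)) (l : List ℝ≥0), B.length = n →
      List.Forall₂ (fun b t => Tendsto (fun j => ((b j : ℕ) : ℝ≥0) / (N j : ℝ≥0)) U (𝓝 t)) B l →
      Tendsto (fun j => Ud (u j) (B.map (fun b => b j))) U
        (𝓝 (Vl p l)) := by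
  intro n
  induction n with
  | zero =>
    intro B l hB h
    have : B = [] := List.length_eq_zero_iff.mp hB
    subst this
    cases h
    simp only [List.map_nil, Ud_nil, Vl_nil]
    exact tendsto_const_nhds
  | succ n ih =>
    intro B l hB h
    cases h with
    | nil => simp at hB
    | @cons b t B' l' hbt h' =>
      have hlen : B'.length = n := by simpa using hB
      simp only [List.map_cons, Ud_cons, Vl_cons, List.map_map]
      apply Tendsto.mul
      · exact hu b t hbt
      · have h2 := ih (B'.map (fun c j => c j - b j)) (l'.map (· - t)) (by simpa using hlen) (by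
          rw [List.forall₂_map_left_iff, List.forall₂_map_right_iff]
          refine h'.imp ?_
          intro c s hc
          have h3 : (fun j => ((c j - b j : ℕ) : ℝ≥0) / (N j : ℝ≥0)) =
              fun j => ((c j : ℕ) : ℝ≥0) / (N j : ℝ≥0) - ((b j : ℕ) : ℝ≥0) / (N j : ℝ≥0) := by
            funext j
            rw [Nat.cast_tsub, tsub_div]
          rw [h3]
          exact hc.sub hbt)
        simp only [List.map_map] at h2
        exact h2

lemma tendsto_floor (N : ℕ → ℕ) (hN : Tendsto N atTop atTop) (t : ℝ≥0) :
    Tendsto (fun j => ((⌊t * (N j : ℝ≥0)⌋₊ : ℕ) : ℝ≥0) / (N j : ℝ≥0)) atTop (𝓝 t) := by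
  have h1 := tendsto_nat_floor_mul_div_atTop (R := ℝ) (a := (t : ℝ)) t.2
  have h2 : Tendsto (fun j => ((N j : ℕ) : ℝ)) atTop atTop :=
    tendsto_natCast_atTop_atTop.comp hN
  have h3 := h1.comp h2
  rw [← NNReal.tendsto_coe]
  refine h3.congr (fun j => ?_)
  simp only [Function.comp_apply, NNReal.coe_div, NNReal.coe_natCast]
  congr 2

/-- existence of the regenerative phenomenon from a convergent sequence of renewal sequences -/
theorem exists_process (p : ℝ≥0 → ℝ)
    (N : ℕ → ℕ) (hN : Tendsto N atTop atTop) (f u : ℕ → ℕ → ℝ)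
    (hf : ∀ j k, 0 ≤ f j k) (hf1 : ∀ j n, ∑ k ∈ range n, f j k ≤ 1)
    (hu0 : ∀ j, u j 0 = 1)
    (hr : ∀ j n, u j (n + 1) = ∑ k ∈ range (n + 1), f j k * u j (n - k))
    (hu : ∀ (b : ℕ → ℕ) (t : ℝ≥0), Tendsto (fun j => ((b j : ℕ) : ℝ≥0) / (N j : ℝ≥0))
      (hyperfilter ℕ : Filter ℕ) (𝓝 t) →
      Tendsto (fun j => u j (b j)) (hyperfilter ℕ : Filter ℕ) (𝓝 (p t))) :
    ∃ P : Measure Path, IsProbabilityMeasure P ∧
      ∀ l : List ℝ≥0, l.Pairwise (· ≤ ·) → P.real {w : Path | ∀ t ∈ l, w t = true} = Vl p l := by
  set P := RealRMK.rieszMeasure (L N f hf hf1) with hP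
  have hfin : IsFiniteMeasure P := inferInstance
  have hLchi : ∀ l : List ℝ≥0, l.Pairwise (· ≤ ·) → L N f hf hf1 (chiC l) = Vl p l := by
    intro l hl
    apply L_spec
    have h1 := tendsto_Ud p N u (hyperfilter ℕ : Filter ℕ) hu l.length
      (l.map (fun t j => ⌊t * (N j : ℝ≥0)⌋₊)) l (by simp) (by
        rw [List.forall₂_map_left_iff]
        rw [List.forall₂_same]
        intro t _
        exact (tendsto_floor N hN t).mono_left
          (by rw [← Nat.cofinite_eq_atTop]; exact hyperfilter_le_cofinite))
    refine h1.congr' ?_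
    obtain ⟨T, hT⟩ : ∃ T : ℕ, ∀ t ∈ l, t ≤ T := by
      clear hl h1
      induction l with
      | nil => exact ⟨0, by simp⟩
      | cons a l ih =>
        obtain ⟨T, hT⟩ := ih
        obtain ⟨S, hS⟩ := exists_nat_ge a
        refine ⟨max S T, ?_⟩
        intro t ht
        rcases List.mem_cons.mp ht with rfl | ht
        · exact hS.trans (by exact_mod_cast le_max_left _ _)
        · exact (hT t ht).trans (by exact_mod_cast le_max_right _ _)
    have hev : ∀ᶠ j in (hyperfilter ℕ : Filter ℕ), T ≤ j := by
      have : ∀ᶠ j in atTop, T ≤ j := eventually_ge_atTop T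
      rw [← Nat.cofinite_eq_atTop] at this
      exact hyperfilter_le_cofinite this
    filter_upwards [hev] with j hj
    unfold Lam
    have h2 : (fun w => (chiC l) (emb (N j) w)) =
        chi (l.map (fun t => ⌊t * (N j : ℝ≥0)⌋₊)) := by
      funext w
      rw [chiC_apply]
      unfold chi emb
      congr 1
      simp
    rw [h2, Phi_chi (u j) (f j) (hu0 j) (fun n => hr j n)]
    · rw [List.map_map]
      rfl
    · apply List.Pairwise.map _ _ hl
      intro a b hab
      apply Nat.floor_mono
      gcongr
    · intro b hb
      obtain ⟨t, ht, rfl⟩ := List.mem_map.mp hb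
      apply Nat.floor_le_of_le
      push_cast
      have := hT t ht
      gcongr
      exact this.trans (by exact_mod_cast hj)
  have hPchi : ∀ l : List ℝ≥0, l.Pairwise (· ≤ ·) →
      P.real {w : Path | ∀ t ∈ l, w t = true} = Vl p l := by
    intro l hl
    rw [← hLchi l hl, ← RealRMK.integral_rieszMeasure (L N f hf hf1) (chiC l)]
    have hcl : MeasurableSet {w : Path | ∀ t ∈ l, w t = true} := by
      have : {w : Path | ∀ t ∈ l, w t = true} = (fun w : Path => chi l w) ⁻¹' {1} := by
        ext w
        simp only [Set.mem_ofPred_eq, Set.mem_preimage, Set.mem_singleton_iff, chi]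
        constructor
        · intro h; rw [if_pos h]
        · intro h
          by_contra hcon
          rw [if_neg hcon] at h
          norm_num at h
      rw [this]
      exact (continuous_chi l).measurable (measurableSet_singleton _)
    have h3 : (fun w : Path => chiC l w) =
        Set.indicator {w : Path | ∀ t ∈ l, w t = true} (fun _ => (1 : ℝ)) := by
      funext w
      rw [chiC_apply]
      unfold chi
      by_cases h : ∀ t ∈ l, w t = true
      · rw [if_pos h, Set.indicator_of_mem (by exact h)]
      · rw [if_neg h, Set.indicator_of_notMem (by exact h)]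
    rw [h3, integral_indicator_const _ hcl]
    simp [hP]
  refine ⟨P, ?_, hPchi⟩
  have h4 := hPchi [] List.Pairwise.nil
  rw [Vl_nil] at h4
  have h5 : {w : Path | ∀ t ∈ ([] : List ℝ≥0), w t = true} = Set.univ := by
    ext w; simp
  rw [h5, measureReal_def] at h4
  refine ⟨?_⟩
  rw [← ENNReal.toReal_eq_one_iff]
  exact h4

end LimitPart

lemma isPFunction_of_process (p : ℝ≥0 → ℝ) (hp0 : p 0 = 1) (P : Measure Path)
    (hP : IsProbabilityMeasure P)
    (h : ∀ l : List ℝ≥0, l.Pairwise (· ≤ ·) → P.real {w : Path | ∀ t ∈ l, w t = true} = Vl p l) :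
    IsPFunction p := by
  refine ⟨hp0, fun t => ?_, Path, inferInstance, P, fun t => {w : Path | w t = true}, hP,
    fun t => ?_, fun n t ht => ?_⟩
  · have h1 := h [t] (List.pairwise_singleton _ _)
    rw [Vl_cons, List.map_nil, Vl_nil, mul_one] at h1
    rw [← h1]
    exact ⟨measureReal_nonneg, measureReal_le_one⟩
  · show MeasurableSet ((fun w : Path => w t) ⁻¹' {true})
    have h2 : Continuous (fun w : Path => w t) := continuous_apply t
    exact ((isClopen_discrete {true}).preimage h2).2.measurableSet
  · have h1 := h (List.ofFn t) (by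
      rw [List.pairwise_ofFn]
      intro i j hij
      exact ht hij.le)
    have h2 := h (List.ofFn (fun i : Fin n => t i.succ - t 0)) (by
      rw [List.pairwise_ofFn]
      intro i j hij
      exact tsub_le_tsub_right (ht (Fin.succ_le_succ_iff.mpr hij.le)) _)
    have e1 : (⋂ i, {w : Path | w (t i) = true}) = {w : Path | ∀ s ∈ List.ofFn t, w s = true} := by
      ext w
      simp only [Set.mem_iInter, Set.mem_ofPred_eq, List.mem_ofFn]
      constructor
      · rintro h s ⟨i, rfl⟩; exact h i
      · intro h i; exact h _ ⟨i, rfl⟩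
    have e2 : (⋂ i : Fin n, {w : Path | w (t i.succ - t 0) = true}) =
        {w : Path | ∀ s ∈ List.ofFn (fun i : Fin n => t i.succ - t 0), w s = true} := by
      ext w
      simp only [Set.mem_iInter, Set.mem_ofPred_eq, List.mem_ofFn]
      constructor
      · rintro h s ⟨i, rfl⟩; exact h i
      · intro h i; exact h _ ⟨i, rfl⟩
    rw [e1, e2, h1, h2, List.ofFn_succ, Vl_cons, List.map_ofFn]
    rfl


end Pool.Agent.N99PF.Lim
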