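import Pool.Agent.N99PF.Disc
import Pool.Agent.N99PF.Defs

/-!
The skeletons of a p-function are renewal sequences, and the lower bound.
-/

set_option autoImplicit false

open Filter Topology MeasureTheory Finset
open scoped NNReal

namespace Pool.Agent.N99PF.Skel

open Pool.Agent.Helper945.RenCore Pool.Agent.N99PF

/-- product of `p` over the gaps of a list of times -/
noncomputable def Vl (p : ℝ≥0 → ℝ) : List ℝ≥0 → ℝ
  | [] => 1
  | t :: l => p t * Vl p (l.map (· - t))
termination_by l => l.length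

lemma Vl_nil (p : ℝ≥0 → ℝ) : Vl p [] = 1 := by rw [Vl]
lemma Vl_cons (p : ℝ≥0 → ℝ) (b : ℝ≥0) (l : List ℝ≥0) :
    Vl p (b :: l) = p b * Vl p (l.map (· - b)) := by
  rw [Vl]

lemma Vl_append (p : ℝ≥0 → ℝ) (a b : ℝ≥0) : ∀ (n : ℕ) (l : List ℝ≥0), l.length = n →
    ∀ a b : ℝ≥0, (∀ c ∈ l, c ≤ a) → a ≤ b → Vl p (l ++ [a, b]) = Vl p (l ++ [a]) * p (b - a) := by
  intro n
  induction n with
  | zero =>
    intro l hl a b _ hab
    have : l = [] := List.length_eq_zero_iff.mp hl
    subst this
    simp only [List.nil_append, Vl_cons, List.map_cons, List.map_nil, Vl_nil, mul_one]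
  | succ n ih =>
    intro l hl a b hc hab
    match l with
    | [] => simp at hl
    | c :: l =>
      have hca : c ≤ a := hc c List.mem_cons_self
      simp only [List.cons_append, Vl_cons, List.map_append, List.map_cons, List.map_nil]
      rw [ih (l.map (· - c)) (by simpa using hl) (a - c) (b - c)
        (by
          intro d hd
          obtain ⟨e, he, rfl⟩ := List.mem_map.mp hd
          exact tsub_le_tsub_right (hc e (List.mem_cons_of_mem _ he)) _)
        (tsub_le_tsub_right hab _), tsub_tsub_tsub_cancel_right hca]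
      ring

section

variable {p : ℝ≥0 → ℝ} {Ω : Type} [MeasurableSpace Ω] {P : Measure Ω} {E : ℝ≥0 → Set Ω}
  [IsProbabilityMeasure P]

/-- intersection over a list -/
def EL (E : ℝ≥0 → Set Ω) (l : List ℝ≥0) : Set Ω := {ω | ∀ t ∈ l, ω ∈ E t}

lemma EL_measurable (hE : ∀ t, MeasurableSet (E t)) (l : List ℝ≥0) : MeasurableSet (EL E l) := by
  induction l with
  | nil => simp [EL]
  | cons a l ih =>
    have : EL E (a :: l) = E a ∩ EL E l := by
      ext ω; simp [EL]
    rw [this]
    exact (hE a).inter ih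

lemma EL_eq (hreg : ∀ (n : ℕ) (t : Fin (n + 1) → ℝ≥0), Monotone t →
      P.real (⋂ i, E (t i)) = p (t 0) * P.real (⋂ i : Fin n, E (t i.succ - t 0))) :
    ∀ (n : ℕ) (l : List ℝ≥0), l.length = n → l.Pairwise (· ≤ ·) → P.real (EL E l) = Vl p l := by
  intro n
  induction n with
  | zero =>
    intro l hl _
    have : l = [] := List.length_eq_zero_iff.mp hl
    subst this
    rw [Vl_nil]
    have : EL E [] = Set.univ := by ext ω; simp [EL]
    rw [this]
    simp
  | succ n ih =>
    intro l hl hs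
    match l with
    | [] => simp at hl
    | b :: l =>
      have hln : l.length = n := by simpa using hl
      subst hln
      have hmono : Monotone (fun i : Fin (l.length + 1) => (b :: l).get i) := by
        intro i j hij
        rcases eq_or_lt_of_le hij with rfl | hlt
        · exact le_rfl
        · exact List.pairwise_iff_get.mp hs i j hlt
      have h1 := hreg l.length (fun i : Fin (l.length + 1) => (b :: l).get i) hmono
      have e1 : (⋂ i : Fin (l.length + 1), E ((b :: l).get i)) = EL E (b :: l) := by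
        ext ω
        simp only [Set.mem_iInter, EL]
        constructor
        · intro h t ht
          obtain ⟨i, rfl⟩ := List.get_of_mem ht
          exact h i
        · intro h i
          exact h _ (List.get_mem _ _)
      have e2 : (⋂ i : Fin l.length, E ((b :: l).get i.succ - (b :: l).get 0))
          = EL E (l.map (· - b)) := by
        ext ω
        simp only [Set.mem_iInter, EL]
        constructor
        · intro h t ht
          obtain ⟨s, hs, rfl⟩ := List.mem_map.mp ht
          obtain ⟨i, rfl⟩ := List.get_of_mem hs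
          exact h i
        · intro h i
          refine h _ (List.mem_map.mpr ⟨l.get i, List.get_mem _ _, ?_⟩)
          rfl
      rw [e1, e2] at h1
      rw [h1, Vl_cons, ih (l.map (· - b)) (by simp) ?_]
      · rfl
      · apply List.Pairwise.map _ _ (List.pairwise_cons.mp hs).2
        intro c d hcd
        exact tsub_le_tsub_right hcd _

lemma EL_append (hreg : ∀ (n : ℕ) (t : Fin (n + 1) → ℝ≥0), Monotone t →
      P.real (⋂ i, E (t i)) = p (t 0) * P.real (⋂ i : Fin n, E (t i.succ - t 0)))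
    (l : List ℝ≥0) (hl : l.Pairwise (· ≤ ·)) (a b : ℝ≥0) (hc : ∀ c ∈ l, c ≤ a) (hab : a ≤ b) :
    P.real (EL E l ∩ E a ∩ E b) = P.real (EL E l ∩ E a) * p (b - a) := by
  have h1 : EL E l ∩ E a ∩ E b = EL E (l ++ [a, b]) := by
    ext ω
    simp only [EL, Set.mem_inter_iff, Set.mem_ofPred_eq, List.mem_append, List.mem_cons,
      List.not_mem_nil, or_false]
    constructor
    · rintro ⟨⟨h, h2⟩, h3⟩ t (ht | rfl | rfl)
      · exact h t ht
      · exact h2
      · exact h3
    · intro h
      exact ⟨⟨fun t ht => h t (Or.inl ht), h a (Or.inr (Or.inl rfl))⟩, h b (Or.inr (Or.inr rfl))⟩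
  have h2 : EL E l ∩ E a = EL E (l ++ [a]) := by
    ext ω
    simp only [EL, Set.mem_inter_iff, Set.mem_ofPred_eq, List.mem_append, List.mem_cons,
      List.not_mem_nil, or_false]
    constructor
    · rintro ⟨h, h2⟩ t (ht | rfl)
      · exact h t ht
      · exact h2
    · intro h
      exact ⟨fun t ht => h t (Or.inl ht), h a (Or.inr rfl)⟩
  have hp2 : (l ++ [a]).Pairwise (· ≤ ·) := by
    rw [List.pairwise_append]
    exact ⟨hl, List.pairwise_singleton _ _, fun c hc' d hd => by
      rw [List.mem_singleton] at hd; rw [hd]; exact hc c hc'⟩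
  have hp1 : (l ++ [a, b]).Pairwise (· ≤ ·) := by
    rw [List.pairwise_append]
    refine ⟨hl, ?_, fun c hc' d hd => ?_⟩
    · simp [hab]
    · simp only [List.mem_cons, List.not_mem_nil, or_false] at hd
      rcases hd with rfl | rfl
      · exact hc c hc'
      · exact (hc c hc').trans hab
  rw [h1, h2, EL_eq hreg _ _ rfl hp1, EL_eq hreg _ _ rfl hp2]
  exact Vl_append p a b _ l rfl a b hc hab

/-- no return at the times `h, 2h, ..., (k-1) h` -/
def X (E : ℝ≥0 → Set Ω) (h : ℝ≥0) (k : ℕ) : Set Ω := {ω | ∀ j, 1 ≤ j → j < k → ω ∉ E (j * h)}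

lemma X_succ (h : ℝ≥0) (k : ℕ) (hk : 1 ≤ k) : X E h (k + 1) = X E h k \ E (k * h) := by
  ext ω
  simp only [X, Set.mem_ofPred_eq, Set.mem_sdiff]
  constructor
  · intro hω
    exact ⟨fun j h1 h2 => hω j h1 (by omega), hω k hk (by omega)⟩
  · rintro ⟨h1, h2⟩ j hj1 hj2
    rcases Nat.lt_or_ge j k with h3 | h3
    · exact h1 j hj1 h3
    · have : j = k := by omega
      subst this
      exact h2

lemma X_one (h : ℝ≥0) : X E h 1 = Set.univ := by
  ext ω
  simp only [X, Set.mem_ofPred_eq, Set.mem_univ, iff_true]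
  intro j h1 h2
  omega

lemma X_measurable (hE : ∀ t, MeasurableSet (E t)) (h : ℝ≥0) (k : ℕ) (hk : 1 ≤ k) :
    MeasurableSet (X E h k) := by
  induction k, hk using Nat.le_induction with
  | base => rw [X_one]; exact MeasurableSet.univ
  | succ k hk ih => rw [X_succ h k hk]; exact ih.diff (hE _)

lemma X_markov (hE : ∀ t, MeasurableSet (E t))
    (hreg : ∀ (n : ℕ) (t : Fin (n + 1) → ℝ≥0), Monotone t →
      P.real (⋂ i, E (t i)) = p (t 0) * P.real (⋂ i : Fin n, E (t i.succ - t 0)))
    (h : ℝ≥0) (m n : ℕ) (hmn : m ≤ n) (k : ℕ) (hk : 1 ≤ k) : k ≤ m →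
    ∀ l : List ℝ≥0, l.Pairwise (· ≤ ·) → (∀ c ∈ l, (k : ℝ≥0) * h ≤ c ∧ c ≤ m * h) →
    P.real (X E h k ∩ EL E l ∩ E (m * h) ∩ E (n * h))
      = P.real (X E h k ∩ EL E l ∩ E (m * h)) * p (n * h - m * h) := by
  have hmn' : (m : ℝ≥0) * h ≤ n * h := by gcongr
  induction k, hk using Nat.le_induction with
  | base =>
    intro _ l hl hc
    rw [X_one, Set.univ_inter]
    exact EL_append hreg l hl _ _ (fun c hc' => (hc c hc').2) hmn'
  | succ k hk ih =>
    intro hkm l hl hc
    have hkk : (k : ℝ≥0) * h ≤ ((k + 1 : ℕ) : ℝ≥0) * h := by gcongr; omega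
    have i1 := ih (by omega) l hl fun c hc' => ⟨hkk.trans (hc c hc').1, (hc c hc').2⟩
    have i2 := ih (by omega) ((k : ℝ≥0) * h :: l)
      (List.pairwise_cons.mpr ⟨fun c hc' => hkk.trans (hc c hc').1, hl⟩)
      (by
        intro c hc'
        rcases List.mem_cons.mp hc' with rfl | hc'
        · exact ⟨le_rfl, by gcongr; omega⟩
        · exact ⟨hkk.trans (hc c hc').1, (hc c hc').2⟩)
    have s1 : X E h k ∩ EL E ((k : ℝ≥0) * h :: l) ∩ E (m * h) ∩ E (n * h)
        = (X E h k ∩ EL E l ∩ E (m * h) ∩ E (n * h)) ∩ E (k * h) := by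
      ext ω; simp only [EL, Set.mem_inter_iff, Set.mem_ofPred_eq, List.mem_cons,
        forall_eq_or_imp]; tauto
    have s2 : X E h k ∩ EL E ((k : ℝ≥0) * h :: l) ∩ E (m * h)
        = (X E h k ∩ EL E l ∩ E (m * h)) ∩ E (k * h) := by
      ext ω; simp only [EL, Set.mem_inter_iff, Set.mem_ofPred_eq, List.mem_cons,
        forall_eq_or_imp]; tauto
    have s3 : X E h (k + 1) ∩ EL E l ∩ E (m * h) ∩ E (n * h)
        = (X E h k ∩ EL E l ∩ E (m * h) ∩ E (n * h)) \ E (k * h) := by
      rw [X_succ h k hk]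
      ext ω; simp only [Set.mem_inter_iff, Set.mem_sdiff]; tauto
    have s4 : X E h (k + 1) ∩ EL E l ∩ E (m * h)
        = (X E h k ∩ EL E l ∩ E (m * h)) \ E (k * h) := by
      rw [X_succ h k hk]
      ext ω; simp only [Set.mem_inter_iff, Set.mem_sdiff]; tauto
    have d1 := measureReal_inter_add_sdiff (μ := P)
      (s := X E h k ∩ EL E l ∩ E (m * h) ∩ E (n * h)) (hE (k * h))
    have d2 := measureReal_inter_add_sdiff (μ := P)
      (s := X E h k ∩ EL E l ∩ E (m * h)) (hE (k * h))
    rw [s1, s2] at i2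
    rw [s3, s4]
    have e1 : P.real ((X E h k ∩ EL E l ∩ E (m * h) ∩ E (n * h)) \ E (k * h))
        = P.real (X E h k ∩ EL E l ∩ E (m * h) ∩ E (n * h))
          - P.real ((X E h k ∩ EL E l ∩ E (m * h) ∩ E (n * h)) ∩ E (k * h)) := by linarith
    have e2 : P.real ((X E h k ∩ EL E l ∩ E (m * h)) \ E (k * h))
        = P.real (X E h k ∩ EL E l ∩ E (m * h))
          - P.real ((X E h k ∩ EL E l ∩ E (m * h)) ∩ E (k * h)) := by linarith
    rw [e1, e2, i1, i2]
    ring

/-- first-return probabilities of the skeleton -/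
noncomputable def gap (P : Measure Ω) (E : ℝ≥0 → Set Ω) (h : ℝ≥0) (m : ℕ) : ℝ :=
  if m = 0 then 0 else P.real (X E h m ∩ E (m * h))

lemma telescope (hE : ∀ t, MeasurableSet (E t)) (h : ℝ≥0) (S : Set Ω) (k : ℕ) :
    P.real S = (∑ m ∈ range (k + 1), if m = 0 then 0 else P.real (X E h m ∩ E (m * h) ∩ S))
      + P.real (X E h (k + 1) ∩ S) := by
  induction k with
  | zero => simp [X_one]
  | succ k ih =>
    rw [sum_range_succ, if_neg (by omega), ih, add_assoc]
    congr 1
    have d1 := measureReal_inter_add_sdiff (μ := P)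
      (s := X E h (k + 1) ∩ S) (hE ((k + 1 : ℕ) * h))
    have s1 : X E h (k + 1) ∩ S ∩ E ((k + 1 : ℕ) * h) = X E h (k + 1) ∩ E ((k + 1 : ℕ) * h) ∩ S := by
      ext ω; simp only [Set.mem_inter_iff]; tauto
    have s2 : (X E h (k + 1) ∩ S) \ E ((k + 1 : ℕ) * h) = X E h (k + 1 + 1) ∩ S := by
      rw [X_succ h (k + 1) (by omega)]
      ext ω; simp only [Set.mem_inter_iff, Set.mem_sdiff]; tauto
    rw [s1, s2] at d1
    exact d1.symm

lemma gap_law (hE : ∀ t, MeasurableSet (E t)) (h : ℝ≥0) : GapLaw (gap P E h) where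
  zero := by simp [gap]
  nonneg n := by
    unfold gap
    split_ifs
    · exact le_rfl
    · exact measureReal_nonneg
  sum_le n := by
    rcases Nat.eq_zero_or_pos n with rfl | hn
    · simp
    obtain ⟨k, rfl⟩ : ∃ k, n = k + 1 := ⟨n - 1, by omega⟩
    have h1 := telescope (P := P) hE h Set.univ k
    simp only [Set.inter_univ] at h1
    have h2 : P.real (Set.univ : Set Ω) = 1 := by simp
    have h3 : 0 ≤ P.real (X E h (k + 1)) := measureReal_nonneg
    unfold gap
    linarith

lemma skel (hE : ∀ t, MeasurableSet (E t)) (hp0 : p 0 = 1)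
    (hreg : ∀ (n : ℕ) (t : Fin (n + 1) → ℝ≥0), Monotone t →
      P.real (⋂ i, E (t i)) = p (t 0) * P.real (⋂ i : Fin n, E (t i.succ - t 0)))
    (h : ℝ≥0) : ∀ n : ℕ, u (gap P E h) n = p (n * h) := by
  intro n
  induction n using Nat.strong_induction_on with
  | _ n ih =>
    rcases Nat.eq_zero_or_pos n with rfl | hn
    · rw [u_zero]; simp [hp0]
    · have G := gap_law (P := P) hE h
      rw [u_rec G.zero n hn]
      have hPE : P.real (E (n * h)) = p (n * h) := by
        have := EL_eq hreg 1 [(n : ℝ≥0) * h] rfl (List.pairwise_singleton _ _)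
        rw [Vl_cons, List.map_nil, Vl_nil, mul_one] at this
        rw [← this]
        congr 1
        ext ω; simp [EL]
      have h1 := telescope (P := P) hE h (E (n * h)) n
      have h2 : X E h (n + 1) ∩ E (n * h) = ∅ := by
        ext ω
        simp only [X, Set.mem_inter_iff, Set.mem_ofPred_eq, Set.mem_empty_iff_false, iff_false]
        rintro ⟨h3, h4⟩
        exact h3 n hn (by omega) h4
      rw [h2, measureReal_empty, add_zero, hPE] at h1
      rw [h1]
      refine sum_congr rfl fun m hm => ?_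
      rw [Finset.mem_range] at hm
      unfold gap
      split_ifs with hm0
      · rw [zero_mul]
      · have h3 := X_markov (P := P) hE hreg h m n (by omega) m (by omega) le_rfl []
          List.Pairwise.nil (by simp)
        have h4 : EL E [] = Set.univ := by ext ω; simp [EL]
        rw [h4, Set.inter_univ] at h3
        have h5 : (n : ℝ≥0) * h - m * h = ((n - m : ℕ) : ℝ≥0) * h := by
          rw [Nat.cast_tsub, tsub_mul]
        have h6 := ih (n - m) (by omega)
        unfold gap at h6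
        rw [h6, h3, h5]

end

/-- the skeleton of a p-function is a renewal sequence -/
theorem exists_gap {p : ℝ≥0 → ℝ} (hp : IsPFunction p) (h : ℝ≥0) :
    ∃ g : ℕ → ℝ, GapLaw g ∧ ∀ n : ℕ, u g n = p (n * h) := by
  obtain ⟨hp0, -, Ω, mΩ, P, E, hP, hE, hreg⟩ := hp
  exact ⟨gap P E h, gap_law hE h, skel hE hp0 hreg h⟩

lemma two {p : ℝ≥0 → ℝ} (hp : IsPFunction p) (s t : ℝ≥0) :
    p s * p t ≤ p (s + t) ∧ p (s + t) ≤ p s * p t + (1 - p t) := by
  obtain ⟨hp0, -, Ω, mΩ, P, E, hP, hE, hreg⟩ := hp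
  have hPE : ∀ a, P.real (E a) = p a := by
    intro a
    have := EL_eq hreg 1 [a] rfl (List.pairwise_singleton _ _)
    rw [Vl_cons, List.map_nil, Vl_nil, mul_one] at this
    rw [← this]
    congr 1
    ext ω; simp [EL]
  have h1 := EL_append hreg [] List.Pairwise.nil t (s + t) (by simp) (by simp)
  have h4 : EL E [] = Set.univ := by ext ω; simp [EL]
  rw [h4, Set.univ_inter, hPE, add_tsub_cancel_right] at h1
  have h2 := measureReal_inter_add_sdiff (μ := P) (s := E (s + t)) (hE t)
  rw [Set.inter_comm, h1, hPE] at h2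
  have h3 : 0 ≤ P.real (E (s + t) \ E t) := measureReal_nonneg
  have h5 : P.real (E (s + t) \ E t) ≤ P.real (E t)ᶜ := by
    refine measureReal_mono ?_
    intro ω hω
    exact hω.2
  have h6 : P.real (E t)ᶜ = 1 - p t := by
    rw [measureReal_compl (hE t), hPE]
    simp
  constructor <;> nlinarith

lemma dist_le {p : ℝ≥0 → ℝ} (hp : IsPFunction p) (s t : ℝ≥0) :
    |p (s + t) - p s| ≤ 1 - p t := by
  have h1 := two hp s t
  have h2 := hp.2.1 s
  have h3 := hp.2.1 t
  rw [abs_le]
  constructor <;> nlinarith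

lemma continuous {p : ℝ≥0 → ℝ} (hp : IsStd p) : Continuous p := by
  rw [continuous_iff_continuousAt]
  intro s
  have h1 : ∀ t, |p t - p s| ≤ 1 - p (nndist t s) := by
    intro t
    rcases le_total s t with h | h
    · have h2 := dist_le hp.1 s (t - s)
      rw [add_tsub_cancel_of_le h] at h2
      have h3 : nndist t s = t - s := by
        rw [NNReal.nndist_eq, tsub_eq_zero_of_le h]
        exact max_eq_left (zero_le)
      rw [h3]
      exact h2
    · have h2 := dist_le hp.1 t (s - t)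
      rw [add_tsub_cancel_of_le h, abs_sub_comm] at h2
      have h3 : nndist t s = s - t := by
        rw [NNReal.nndist_eq, tsub_eq_zero_of_le h]
        exact max_eq_right (zero_le)
      rw [h3]
      exact h2
  have h2 : Tendsto (fun t : ℝ≥0 => 1 - p (nndist t s)) (𝓝 s) (𝓝 0) := by
    have h3 : Tendsto (fun t : ℝ≥0 => nndist t s) (𝓝 s) (𝓝 0) := by
      have : Continuous (fun t : ℝ≥0 => nndist t s) := by fun_prop
      have h4 := this.tendsto s
      rwa [nndist_self] at h4
    have h4 := (hp.2.comp h3).const_sub 1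
    simpa using h4
  have h3 : Tendsto (fun t => p t - p s) (𝓝 s) (𝓝 0) :=
    squeeze_zero_norm (fun t => h1 t) h2
  have h4 := h3.add_const (p s)
  simpa [ContinuousAt] using h4

/-- **Lower bound.** -/
theorem lower {p : ℝ≥0 → ℝ} (hp : IsStd p) (y x : ℝ≥0) (hyx : y ≤ x) :
    p x ≤ max (Real.exp (p y - 1)) (Real.log 2) := by
  rcases eq_or_lt_of_le hyx with rfl | hlt
  · refine le_trans ?_ (le_max_left _ _)
    have := Real.add_one_le_exp (p y - 1)
    linarith
  have hx : 0 < x := lt_of_le_of_lt zero_le hlt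
  have hcont := continuous hp
  -- meshes
  have hmesh : Tendsto (fun n : ℕ => x / (n : ℝ≥0)) atTop (𝓝 0) := by
    rw [← NNReal.tendsto_coe]
    simp only [NNReal.coe_div, NNReal.coe_natCast, NNReal.coe_zero]
    exact tendsto_const_div_atTop_nhds_zero_nat (x : ℝ)
  have hc : Tendsto (fun n : ℕ => (p (x / (n : ℝ≥0)))⁻¹) atTop (𝓝 1) := by
    have := (hp.2.comp hmesh).inv₀ one_ne_zero
    simpa using this
  have hk : Tendsto (fun n : ℕ => ((⌊(y / x) * (n : ℝ≥0)⌋₊ : ℕ) : ℝ≥0) * (x / (n : ℝ≥0)))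
      atTop (𝓝 y) := by
    have h1 : Tendsto (fun n : ℕ => ((⌊(y / x) * (n : ℝ≥0)⌋₊ : ℕ) : ℝ≥0) / (n : ℝ≥0)) atTop
        (𝓝 (y / x)) := by
      have h1 := tendsto_nat_floor_mul_div_atTop (R := ℝ) (a := ((y / x : ℝ≥0) : ℝ)) (y / x).2
      have h3 := h1.comp (tendsto_natCast_atTop_atTop (R := ℝ))
      rw [← NNReal.tendsto_coe]
      refine h3.congr (fun j => ?_)
      simp only [Function.comp_apply, NNReal.coe_div, NNReal.coe_natCast]
      congr 2
    have h2 := h1.mul_const x
    rw [div_mul_cancel₀ _ hx.ne'] at h2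
    refine h2.congr fun n => ?_
    rw [div_mul_eq_mul_div, mul_div_assoc]
  have hpk := (hcont.tendsto y).comp hk
  have hlim : Tendsto (fun n : ℕ => max ((p (x / (n : ℝ≥0)))⁻¹
      * Real.exp (p (((⌊(y / x) * (n : ℝ≥0)⌋₊ : ℕ) : ℝ≥0) * (x / (n : ℝ≥0)))
        / (p (x / (n : ℝ≥0)))⁻¹ - 1)) ((p (x / (n : ℝ≥0)))⁻¹ * Real.log 2)) atTop
      (𝓝 (max (1 * Real.exp (p y / 1 - 1)) (1 * Real.log 2))) := by
    refine Tendsto.max ?_ (hc.mul_const _)
    refine hc.mul ?_
    refine (Real.continuous_exp.tendsto _).comp ?_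
    exact (hpk.div hc one_ne_zero).sub_const 1
  rw [one_mul, one_mul, div_one] at hlim
  refine ge_of_tendsto hlim ?_
  have hpos : ∀ᶠ n : ℕ in atTop, 0 < p (x / (n : ℝ≥0)) :=
    (hp.2.comp hmesh).eventually (lt_mem_nhds one_pos)
  filter_upwards [hpos, eventually_gt_atTop 0] with n hn hn0
  have hn0' : (0 : ℝ≥0) < n := by exact_mod_cast hn0
  obtain ⟨g, G, hg⟩ := exists_gap hp.1 (x / (n : ℝ≥0))
  have hg1 : g 1 = p (x / (n : ℝ≥0)) := by
    rw [← u_one G.zero, hg]; simp
  have h1 := Disc.disc G (by rw [hg1]; exact hn) ⌊(y / x) * (n : ℝ≥0)⌋₊ n (by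
    refine Nat.floor_le_of_le ?_
    have h2 : y / x ≤ 1 := by rw [div_le_one hx]; exact hyx
    exact mul_le_of_le_one_left zero_le h2)
  rw [hg, hg, hg1, mul_div_cancel₀ _ hn0'.ne'] at h1
  exact h1

end Pool.Agent.N99PF.Skel
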